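import Mathlib
import Pool.Agent.Helper36.CV.StmtsP

set_option autoImplicit false
set_option linter.unusedVariables false

namespace Pool.Agent.Helper36.CV

open Complex Filter Topology MeasureTheory Set

noncomputable section

theorem a1_mem_Uc_real (t : ℝ) : ((t : ℝ) : ℂ) ∈ Uc := by simp [Uc]

theorem a1_Uo_sub : Uo ⊆ Uc := fun z (hz : 0 < z.im) => (le_of_lt hz : 0 ≤ z.im)

theorem a1_isClosed_Uc : IsClosed Uc := isClosed_le continuous_const Complex.continuous_im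

theorem a1_isOpen_Uo : IsOpen Uo := isOpen_lt continuous_const Complex.continuous_im

/-- a continuous function on `Uc` bounded at infinity by a power is bounded by it everywhere -/
theorem a1_glob (F : ℂ → ℂ) (hc : ContinuousOn F Uc) (R B : ℝ)
    (hb : ∀ z ∈ Uc, R ≤ ‖z‖ → ‖F z‖ ≤ B * (1 + ‖z‖) ^ (-(3 / 2) : ℝ)) :
    ∃ B' : ℝ, 0 ≤ B' ∧ ∀ z ∈ Uc, ‖F z‖ ≤ B' * (1 + ‖z‖) ^ (-(3 / 2) : ℝ) := by
  have hK : IsCompact (Metric.closedBall (0 : ℂ) R ∩ Uc) :=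
    (isCompact_closedBall _ _).inter_right a1_isClosed_Uc
  obtain ⟨M, hM⟩ := hK.exists_bound_of_continuousOn (hc.mono inter_subset_right)
  refine ⟨|B| + |M| * (1 + |R|) ^ (3 / 2 : ℝ), by positivity, fun z hz => ?_⟩
  have hp : 0 < (1 + ‖z‖ : ℝ) ^ (-(3 / 2) : ℝ) := by positivity
  have hq : (0 : ℝ) ≤ (1 + |R|) ^ (3 / 2 : ℝ) := by positivity
  by_cases h : R ≤ ‖z‖
  · calc ‖F z‖ ≤ B * (1 + ‖z‖) ^ (-(3 / 2) : ℝ) := hb z hz h
      _ ≤ (|B| + |M| * (1 + |R|) ^ (3 / 2 : ℝ)) * (1 + ‖z‖) ^ (-(3 / 2) : ℝ) := by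
          apply mul_le_mul_of_nonneg_right _ hp.le
          have h1 := le_abs_self B
          have h2 : 0 ≤ |M| * (1 + |R|) ^ (3 / 2 : ℝ) := by positivity
          linarith
  · have h' : ‖z‖ ≤ R := by linarith [not_le.mp h]
    have h1 : ‖F z‖ ≤ M := hM z ⟨by simpa using h', hz⟩
    have h2 : (1 : ℝ) ≤ (1 + |R|) ^ (3 / 2 : ℝ) * (1 + ‖z‖) ^ (-(3 / 2) : ℝ) := by
      rw [Real.rpow_neg (by positivity), ← div_eq_mul_inv, one_le_div (by positivity)]
      apply Real.rpow_le_rpow (by positivity) _ (by norm_num)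
      have := le_abs_self R
      linarith
    calc ‖F z‖ ≤ |M| * 1 := by linarith [le_abs_self M]
      _ ≤ |M| * ((1 + |R|) ^ (3 / 2 : ℝ) * (1 + ‖z‖) ^ (-(3 / 2) : ℝ)) :=
          mul_le_mul_of_nonneg_left h2 (abs_nonneg _)
      _ ≤ (|B| + |M| * (1 + |R|) ^ (3 / 2 : ℝ)) * (1 + ‖z‖) ^ (-(3 / 2) : ℝ) := by
          have h3 : 0 ≤ |B| * (1 + ‖z‖) ^ (-(3 / 2) : ℝ) := by positivity
          nlinarith [h3]

/-- a function decaying like the power `-3/2` has vanishing integral over the real line -/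
theorem a1_L0 (F : ℂ → ℂ) (hc : ContinuousOn F Uc) (hd : DifferentiableOn ℂ F Uo) (R B : ℝ)
    (hb : ∀ z ∈ Uc, R ≤ ‖z‖ → ‖F z‖ ≤ B * (1 + ‖z‖) ^ (-(3 / 2) : ℝ)) :
    Integrable (fun t : ℝ => F t) ∧ ∫ t : ℝ, F t = 0 := by
  obtain ⟨B', hB', hB⟩ := a1_glob F hc R B hb
  have hcont : Continuous (fun t : ℝ => F t) := by
    rw [continuous_iff_continuousAt]
    intro t
    have h1 : ContinuousWithinAt F Uc ((t : ℝ) : ℂ) := hc _ (a1_mem_Uc_real t)
    have h2 : Tendsto (fun s : ℝ => ((s : ℝ) : ℂ)) (𝓝 t) (𝓝[Uc] ((t : ℝ) : ℂ)) :=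
      tendsto_nhdsWithin_iff.mpr ⟨Complex.continuous_ofReal.tendsto t,
        Filter.Eventually.of_forall a1_mem_Uc_real⟩
    exact h1.tendsto.comp h2
  have hint : Integrable (fun t : ℝ => F t) := by
    have h1 : Integrable (fun t : ℝ => B' * (1 + ‖t‖) ^ (-(3 / 2) : ℝ)) := by
      apply Integrable.const_mul
      apply integrable_one_add_norm
      simp
      norm_num
    refine h1.mono' hcont.aestronglyMeasurable (Filter.Eventually.of_forall fun t => ?_)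
    have h2 := hB t (a1_mem_Uc_real t)
    simpa using h2
  refine ⟨hint, ?_⟩
  have hlim : Tendsto (fun R : ℝ => ∫ t in (-R)..R, F t) atTop (𝓝 (∫ t : ℝ, F t)) :=
    intervalIntegral_tendsto_integral hint tendsto_neg_atTop_atBot tendsto_id
  have hbd : ∀ R : ℝ, 0 < R → ‖∫ t in (-R)..R, F t‖ ≤ 4 * B' * (1 + R) ^ (-(1 / 2) : ℝ) := by
    intro R hR
    have key := Complex.integral_boundary_rect_eq_zero_of_continuousOn_of_differentiableOn F
      (-(R : ℂ)) ((R : ℂ) + (R : ℂ) * I) ?_ ?_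
    · simp only [neg_re, ofReal_re, neg_im, ofReal_im, neg_zero, add_re, mul_re, I_re, mul_zero,
        I_im, mul_one, sub_zero, add_zero, add_im, mul_im, zero_add, ofReal_zero, zero_mul, smul_eq_mul]
        at key
      have e1 : ∀ ζ : ℂ, 0 ≤ ζ.im → R ≤ ‖ζ‖ → ‖F ζ‖ ≤ B' * (1 + R) ^ (-(3 / 2) : ℝ) := by
        intro ζ h1 h2
        refine (hB ζ h1).trans (mul_le_mul_of_nonneg_left ?_ hB')
        exact Real.rpow_le_rpow_of_nonpos (by linarith) (by linarith) (by norm_num)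
      have s1 : ‖∫ x in (-R)..R, F ((x : ℂ) + (R : ℂ) * I)‖ ≤ B' * (1 + R) ^ (-(3 / 2) : ℝ) * |R - -R| := by
        apply intervalIntegral.norm_integral_le_of_norm_le_const
        intro x hx
        apply e1
        · simp; exact hR.le
        · have := Complex.abs_im_le_norm ((x : ℂ) + (R : ℂ) * I)
          simp at this
          exact (le_abs_self R).trans this
      have s2 : ‖∫ y in (0 : ℝ)..R, F ((R : ℂ) + (y : ℂ) * I)‖ ≤ B' * (1 + R) ^ (-(3 / 2) : ℝ) * |R - 0| := by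
        apply intervalIntegral.norm_integral_le_of_norm_le_const
        intro y hy
        rw [Set.uIoc_of_le hR.le] at hy
        apply e1
        · simp; exact hy.1.le
        · have := Complex.abs_re_le_norm ((R : ℂ) + (y : ℂ) * I)
          simp at this
          exact (le_abs_self R).trans this
      have s3 : ‖∫ y in (0 : ℝ)..R, F (((-R : ℝ) : ℂ) + (y : ℂ) * I)‖ ≤ B' * (1 + R) ^ (-(3 / 2) : ℝ) * |R - 0| := by
        apply intervalIntegral.norm_integral_le_of_norm_le_const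
        intro y hy
        rw [Set.uIoc_of_le hR.le] at hy
        apply e1
        · simp; exact hy.1.le
        · have := Complex.abs_re_le_norm (((-R : ℝ) : ℂ) + (y : ℂ) * I)
          have e : (((-R : ℝ) : ℂ) + (y : ℂ) * I).re = -R := by simp
          rw [e, abs_neg] at this
          exact (le_abs_self R).trans this
      have e2 : (∫ t in (-R)..R, F t) = (∫ x in (-R)..R, F ((x : ℂ) + (R : ℂ) * I))
          - I * (∫ y in (0 : ℝ)..R, F ((R : ℂ) + (y : ℂ) * I))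
          + I * (∫ y in (0 : ℝ)..R, F (((-R : ℝ) : ℂ) + (y : ℂ) * I)) := by
        linear_combination key
      have hRR : |R - -R| = 2 * R := by rw [abs_of_nonneg (by linarith)]; ring
      have hR0 : |R - 0| = R := by rw [sub_zero, abs_of_pos hR]
      rw [hRR] at s1
      rw [hR0] at s2 s3
      have hpow : R * (1 + R) ^ (-(3 / 2) : ℝ) ≤ (1 + R) ^ (-(1 / 2) : ℝ) := by
        have : (1 + R) ^ (-(1 / 2) : ℝ) = (1 + R) * (1 + R) ^ (-(3 / 2) : ℝ) := by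
          rw [← Real.rpow_one_add' (by linarith) (by norm_num)]
          norm_num
        rw [this]
        apply mul_le_mul_of_nonneg_right (by linarith) (by positivity)
      rw [e2]
      calc ‖(∫ x in (-R)..R, F ((x : ℂ) + (R : ℂ) * I))
          - I * (∫ y in (0 : ℝ)..R, F ((R : ℂ) + (y : ℂ) * I))
          + I * (∫ y in (0 : ℝ)..R, F (((-R : ℝ) : ℂ) + (y : ℂ) * I))‖
          ≤ ‖∫ x in (-R)..R, F ((x : ℂ) + (R : ℂ) * I)‖
            + ‖I * (∫ y in (0 : ℝ)..R, F ((R : ℂ) + (y : ℂ) * I))‖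
            + ‖I * (∫ y in (0 : ℝ)..R, F (((-R : ℝ) : ℂ) + (y : ℂ) * I))‖ :=
            (norm_add_le _ _).trans (by gcongr; exact norm_sub_le _ _)
        _ ≤ B' * (1 + R) ^ (-(3 / 2) : ℝ) * (2 * R) + B' * (1 + R) ^ (-(3 / 2) : ℝ) * R
            + B' * (1 + R) ^ (-(3 / 2) : ℝ) * R := by
            rw [norm_mul, norm_mul, Complex.norm_I, one_mul, one_mul]
            gcongr
        _ = 4 * B' * (R * (1 + R) ^ (-(3 / 2) : ℝ)) := by ring
        _ ≤ 4 * B' * (1 + R) ^ (-(1 / 2) : ℝ) := by gcongr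
    · apply hc.mono
      intro ζ hζ
      have h2 := hζ.2
      simp only [mem_preimage, neg_im, ofReal_im, neg_zero, add_im, mul_im, ofReal_re, I_im, mul_one,
        I_re, mul_zero, add_zero, zero_add] at h2
      rw [Set.uIcc_of_le hR.le] at h2
      exact h2.1
    · apply hd.mono
      intro ζ hζ
      have h2 := hζ.2
      simp only [mem_preimage, neg_im, ofReal_im, neg_zero, add_im, mul_im, ofReal_re, I_im, mul_one,
        I_re, mul_zero, add_zero, zero_add] at h2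
      rw [min_eq_left hR.le] at h2
      exact h2.1
  have hz : Tendsto (fun R : ℝ => 4 * B' * (1 + R) ^ (-(1 / 2) : ℝ)) atTop (𝓝 0) := by
    have h1 : Tendsto (fun x : ℝ => x ^ (-(1 / 2) : ℝ)) atTop (𝓝 0) :=
      tendsto_rpow_neg_atTop (by norm_num)
    have h2 : Tendsto (fun R : ℝ => 1 + R) atTop atTop := tendsto_atTop_add_const_left _ _ tendsto_id
    have h3 := (h1.comp h2).const_mul (4 * B')
    simpa using h3
  have h0 : Tendsto (fun R : ℝ => ∫ t in (-R)..R, F t) atTop (𝓝 0) := by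
    apply squeeze_zero_norm' _ hz
    filter_upwards [eventually_gt_atTop 0] with R hR
    exact hbd R hR
  exact tendsto_nhds_unique hlim h0

theorem a1_log (r : ℝ) (hr : 0 ≤ r) : 1 + Real.log (1 + r) ≤ 3 * (1 + r) ^ (1 / 2 : ℝ) := by
  have h0 : (0 : ℝ) < 1 + r := by linarith
  have h1 : Real.log (1 + r) = 2 * Real.log ((1 + r) ^ (1 / 2 : ℝ)) := by
    rw [Real.log_rpow h0]; ring
  have h2 : (0 : ℝ) < (1 + r) ^ (1 / 2 : ℝ) := by positivity
  have h3 := Real.log_le_sub_one_of_pos h2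
  have h4 : (1 : ℝ) ≤ (1 + r) ^ (1 / 2 : ℝ) := Real.one_le_rpow (by linarith) (by norm_num)
  rw [h1]
  linarith

theorem a1_dec (H : ℂ → ℂ) (C : ℝ) (hC : 0 ≤ C) (w u : ℂ)
    (hH : ∀ z ∈ Uc, ‖H z‖ ≤ C * (1 + ‖z‖) ^ (1 / 2 : ℝ)) :
    ∀ z ∈ Uc, 2 * (‖w‖ + ‖u‖) + 1 ≤ ‖z‖ →
      ‖H z * ((w - u) / ((z - w) * (z - u)))‖ ≤ (16 * C * ‖w - u‖) * (1 + ‖z‖) ^ (-(3 / 2) : ℝ) := by
  intro z hz hR
  have h1 : (1 + ‖z‖) / 4 ≤ ‖z - w‖ := by
    have := norm_sub_norm_le z w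
    have h2 := norm_nonneg u
    have h3 := norm_nonneg w
    linarith
  have h2 : (1 + ‖z‖) / 4 ≤ ‖z - u‖ := by
    have := norm_sub_norm_le z u
    have h2 := norm_nonneg u
    have h3 := norm_nonneg w
    linarith
  have hp : (0 : ℝ) < 1 + ‖z‖ := by positivity
  have h3 : ((1 + ‖z‖) / 4) * ((1 + ‖z‖) / 4) ≤ ‖z - w‖ * ‖z - u‖ :=
    mul_le_mul h1 h2 (by positivity) (norm_nonneg _)
  have h4 : ‖(w - u) / ((z - w) * (z - u))‖ ≤ 16 * ‖w - u‖ * (1 + ‖z‖) ^ (-2 : ℝ) := by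
    rw [norm_div, norm_mul, Real.rpow_neg hp.le, ← div_eq_mul_inv]
    have h5 : (1 + ‖z‖) ^ (2 : ℝ) = (1 + ‖z‖) * (1 + ‖z‖) := by
      rw [show (2 : ℝ) = ((2 : ℕ) : ℝ) by norm_num, Real.rpow_natCast]; ring
    rw [h5, div_le_div_iff₀ (lt_of_lt_of_le (by positivity) h3) (by positivity)]
    nlinarith [norm_nonneg (w - u)]
  have h6 : (1 + ‖z‖) ^ (-(3 / 2) : ℝ) = (1 + ‖z‖) ^ (1 / 2 : ℝ) * (1 + ‖z‖) ^ (-2 : ℝ) := by
    rw [← Real.rpow_add hp]; norm_num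
  rw [norm_mul, h6]
  calc ‖H z‖ * ‖(w - u) / ((z - w) * (z - u))‖
      ≤ (C * (1 + ‖z‖) ^ (1 / 2 : ℝ)) * (16 * ‖w - u‖ * (1 + ‖z‖) ^ (-2 : ℝ)) :=
        mul_le_mul (hH z hz) h4 (norm_nonneg _) (by positivity)
    _ = _ := by ring

theorem a1_ne_of_im_neg {z u : ℂ} (hz : z ∈ Uc) (hu : u.im < 0) : z - u ≠ 0 := by
  intro h
  have : z = u := sub_eq_zero.mp h
  rw [this] at hz
  exact absurd (show 0 ≤ u.im from hz) (not_le.mpr hu)

theorem a1_real_ne {w : ℂ} (hw : 0 < w.im) (t : ℝ) : (t : ℂ) - w ≠ 0 := by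
  intro h
  have : (t : ℂ) = w := sub_eq_zero.mp h
  rw [← this] at hw
  simp at hw

theorem a1_L1 (G : ℂ → ℂ) (C : ℝ) (hC : 0 ≤ C) (hc : ContinuousOn G Uc) (hd : DifferentiableOn ℂ G Uo)
    (hG : ∀ z ∈ Uc, ‖G z‖ ≤ C * (1 + ‖z‖) ^ (1 / 2 : ℝ)) (w u : ℂ) (hw : 0 < w.im) (hu : u.im < 0) :
    Integrable (fun t : ℝ => (G t - G w) * ((w - u) / (((t : ℂ) - w) * ((t : ℂ) - u)))) ∧
      ∫ t : ℝ, (G t - G w) * ((w - u) / (((t : ℂ) - w) * ((t : ℂ) - u))) = 0 := by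
  have hwo : w ∈ Uo := hw
  have hnc : Uc ∈ 𝓝 w := mem_of_superset (a1_isOpen_Uo.mem_nhds hwo) a1_Uo_sub
  have hno : Uo ∈ 𝓝 w := a1_isOpen_Uo.mem_nhds hwo
  have hda : DifferentiableAt ℂ G w := hd.differentiableAt hno
  have key := a1_L0 (fun z => dslope G w z * ((w - u) / (z - u))) ?_ ?_ (2 * (‖w‖ + ‖u‖) + 1)
    (16 * (C + ‖G w‖) * ‖w - u‖) ?_
  · have e : ∀ t : ℝ, dslope G w (t : ℂ) * ((w - u) / ((t : ℂ) - u))
        = (G t - G w) * ((w - u) / (((t : ℂ) - w) * ((t : ℂ) - u))) := by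
      intro t
      have h1 : (t : ℂ) ≠ w := fun h => a1_real_ne hw t (sub_eq_zero.mpr h)
      rw [dslope_of_ne _ h1, slope_def_field]
      have h2 := a1_real_ne hw t
      have h3 : (t : ℂ) - u ≠ 0 := a1_ne_of_im_neg (a1_mem_Uc_real t) hu
      field_simp
    simp only [e] at key
    exact key
  · apply ContinuousOn.mul
    · exact (continuousOn_dslope hnc).mpr ⟨hc, hda⟩
    · apply ContinuousOn.div continuousOn_const (continuousOn_id.sub continuousOn_const)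
      intro z hz
      exact a1_ne_of_im_neg hz hu
  · apply DifferentiableOn.mul
    · exact (Complex.differentiableOn_dslope hno).mpr hd
    · apply DifferentiableOn.div (differentiableOn_const _) (differentiableOn_id.sub (differentiableOn_const _))
      intro z hz
      exact a1_ne_of_im_neg (a1_Uo_sub hz) hu
  · intro z hz hR
    have hzw : z ≠ w := by
      intro h
      rw [h] at hR
      have := norm_nonneg w
      have := norm_nonneg u
      linarith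
    have h1 : z - w ≠ 0 := sub_ne_zero.mpr hzw
    have h2 : z - u ≠ 0 := a1_ne_of_im_neg hz hu
    have e : dslope G w z * ((w - u) / (z - u)) = (G z - G w) * ((w - u) / ((z - w) * (z - u))) := by
      rw [dslope_of_ne _ hzw, slope_def_field]
      field_simp
    rw [e]
    refine a1_dec (fun z => G z - G w) (C + ‖G w‖) (by positivity) w u ?_ z hz hR
    intro z hz
    have h3 : (1 : ℝ) ≤ (1 + ‖z‖) ^ (1 / 2 : ℝ) :=
      Real.one_le_rpow (by linarith [norm_nonneg z]) (by norm_num)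
    calc ‖G z - G w‖ ≤ ‖G z‖ + ‖G w‖ := norm_sub_le _ _
      _ ≤ C * (1 + ‖z‖) ^ (1 / 2 : ℝ) + ‖G w‖ * (1 + ‖z‖) ^ (1 / 2 : ℝ) := by
          apply add_le_add (hG z hz)
          exact le_mul_of_one_le_right (norm_nonneg _) h3
      _ = _ := by ring

theorem a1_L2 (G : ℂ → ℂ) (C : ℝ) (hC : 0 ≤ C) (hc : ContinuousOn G Uc) (hd : DifferentiableOn ℂ G Uo)
    (hG : ∀ z ∈ Uc, ‖G z‖ ≤ C * (1 + ‖z‖) ^ (1 / 2 : ℝ)) (w u : ℂ) (hw : w.im < 0) (hu : u.im < 0) :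
    Integrable (fun t : ℝ => G t * ((w - u) / (((t : ℂ) - w) * ((t : ℂ) - u)))) ∧
      ∫ t : ℝ, G t * ((w - u) / (((t : ℂ) - w) * ((t : ℂ) - u))) = 0 := by
  refine a1_L0 (fun z => G z * ((w - u) / ((z - w) * (z - u)))) ?_ ?_ (2 * (‖w‖ + ‖u‖) + 1)
    (16 * C * ‖w - u‖) ?_
  · apply ContinuousOn.mul hc
    apply ContinuousOn.div continuousOn_const
      ((continuousOn_id.sub continuousOn_const).mul (continuousOn_id.sub continuousOn_const))
    intro z hz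
    exact mul_ne_zero (a1_ne_of_im_neg hz hw) (a1_ne_of_im_neg hz hu)
  · apply DifferentiableOn.mul hd
    apply DifferentiableOn.div (differentiableOn_const _)
      ((differentiableOn_id.sub (differentiableOn_const _)).mul
        (differentiableOn_id.sub (differentiableOn_const _)))
    intro z hz
    exact mul_ne_zero (a1_ne_of_im_neg (a1_Uo_sub hz) hw) (a1_ne_of_im_neg (a1_Uo_sub hz) hu)
  · exact a1_dec G C hC w u hG

/-- the Poisson kernel as a complex number -/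
theorem a1_kernel (z : ℂ) (hz : 0 < z.im) (t : ℝ) :
    (z - (starRingEnd ℂ) z) / (((t : ℂ) - z) * ((t : ℂ) - (starRingEnd ℂ) z))
      = 2 * I * (((z.im / ((t - z.re) ^ 2 + z.im ^ 2) : ℝ)) : ℂ) := by
  have h1 : z - (starRingEnd ℂ) z = 2 * I * (z.im : ℂ) := by
    rw [Complex.sub_conj]; push_cast; ring
  have h2 : ((t : ℂ) - z) * ((t : ℂ) - (starRingEnd ℂ) z) = (((t - z.re) ^ 2 + z.im ^ 2 : ℝ) : ℂ) := by
    have hc : (starRingEnd ℂ) z = (z.re : ℂ) - (z.im : ℂ) * I := by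
      apply Complex.ext <;> simp
    have hz' : z = (z.re : ℂ) + (z.im : ℂ) * I := (Complex.re_add_im z).symm
    have h3 : ((t : ℂ) - z) * ((t : ℂ) - (starRingEnd ℂ) z)
        = ((t : ℂ) - ((z.re : ℂ) + (z.im : ℂ) * I)) * ((t : ℂ) - ((z.re : ℂ) - (z.im : ℂ) * I)) := by
      rw [hc, Complex.re_add_im]
    rw [h3]
    push_cast
    linear_combination (-(z.im : ℂ) ^ 2) * Complex.I_sq
  rw [h1, h2]
  push_cast
  ring

theorem a1_poisson (z : ℂ) (hz : 0 < z.im) :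
    Integrable (fun t : ℝ => z.im / ((t - z.re) ^ 2 + z.im ^ 2)) ∧
      ∫ t : ℝ, z.im / ((t - z.re) ^ 2 + z.im ^ 2) = Real.pi := by
  have h1 : Integrable (fun x : ℝ => (1 + x ^ 2)⁻¹) := integrable_inv_one_add_sq
  have e : ∀ t : ℝ, z.im / ((t - z.re) ^ 2 + z.im ^ 2) = z.im⁻¹ * (1 + ((t - z.re) / z.im) ^ 2)⁻¹ := by
    intro t
    have hz' : z.im ≠ 0 := hz.ne'
    have h2 : (t - z.re) ^ 2 + z.im ^ 2 ≠ 0 := by positivity
    have h3 : 1 + ((t - z.re) / z.im) ^ 2 ≠ 0 := by positivity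
    field_simp
    ring
  simp only [e]
  have h2 : Integrable (fun t : ℝ => (1 + ((t - z.re) / z.im) ^ 2)⁻¹) := by
    have h3 := (h1.comp_div hz.ne').comp_sub_right z.re
    simpa using h3
  refine ⟨h2.const_mul _, ?_⟩
  rw [integral_const_mul]
  have h3 : ∫ t : ℝ, (1 + ((t - z.re) / z.im) ^ 2)⁻¹ = ∫ t : ℝ, (1 + (t / z.im) ^ 2)⁻¹ :=
    integral_sub_right_eq_self (fun t : ℝ => (1 + (t / z.im) ^ 2)⁻¹) z.re
  rw [h3, Measure.integral_comp_div (fun x : ℝ => (1 + x ^ 2)⁻¹) z.im, integral_univ_inv_one_add_sq,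
    abs_of_pos hz, smul_eq_mul, ← mul_assoc, inv_mul_cancel₀ hz.ne', one_mul]

theorem a1_part1 (G : ℂ → ℂ) (C : ℝ) (hC : 0 ≤ C) (hc : ContinuousOn G Uc) (hd : DifferentiableOn ℂ G Uo)
    (hG : ∀ z ∈ Uc, ‖G z‖ ≤ C * (1 + ‖z‖) ^ (1 / 2 : ℝ)) (z : ℂ) (hz : 0 < z.im) :
    Integrable (fun t : ℝ => ((z.im / ((t - z.re) ^ 2 + z.im ^ 2) : ℝ) : ℂ) * G t) ∧
    ∫ t : ℝ, ((z.im / ((t - z.re) ^ 2 + z.im ^ 2) : ℝ) : ℂ) * G t = Real.pi * G z := by
  obtain ⟨i1, e1⟩ := a1_L1 G C hC hc hd hG z ((starRingEnd ℂ) z) hz (by simpa using hz)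
  obtain ⟨i2, e2⟩ := a1_poisson z hz
  have i2' : Integrable (fun t : ℝ => ((z.im / ((t - z.re) ^ 2 + z.im ^ 2) : ℝ) : ℂ)) := i2.ofReal
  have e2' : ∫ t : ℝ, ((z.im / ((t - z.re) ^ 2 + z.im ^ 2) : ℝ) : ℂ) = Real.pi := by
    have h := Complex.ofRealCLM.integral_comp_comm i2
    rw [e2] at h
    exact h
  have ek : ∀ t : ℝ, (G t - G z) * ((z - (starRingEnd ℂ) z) / (((t : ℂ) - z) * ((t : ℂ) - (starRingEnd ℂ) z)))
      = 2 * I * (((z.im / ((t - z.re) ^ 2 + z.im ^ 2) : ℝ) : ℂ) * G t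
        - ((z.im / ((t - z.re) ^ 2 + z.im ^ 2) : ℝ) : ℂ) * G z) := by
    intro t
    rw [a1_kernel z hz]; ring
  simp only [ek] at i1 e1
  have h2I : (2 * I : ℂ) ≠ 0 := by simp
  have i3 : Integrable (fun t : ℝ => ((z.im / ((t - z.re) ^ 2 + z.im ^ 2) : ℝ) : ℂ) * G t
        - ((z.im / ((t - z.re) ^ 2 + z.im ^ 2) : ℝ) : ℂ) * G z) := by
    have := i1.const_mul ((2 * I : ℂ)⁻¹)
    refine this.congr (Filter.Eventually.of_forall fun t => ?_)
    show (2 * I : ℂ)⁻¹ * (2 * I * _) = _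
    rw [inv_mul_cancel_left₀ h2I]
  have i4 : Integrable (fun t : ℝ => ((z.im / ((t - z.re) ^ 2 + z.im ^ 2) : ℝ) : ℂ) * G z) :=
    i2'.mul_const _
  have i5 : Integrable (fun t : ℝ => ((z.im / ((t - z.re) ^ 2 + z.im ^ 2) : ℝ) : ℂ) * G t) := by
    have := i3.add i4
    refine this.congr (Filter.Eventually.of_forall fun t => ?_)
    simp
  refine ⟨i5, ?_⟩
  rw [integral_const_mul, integral_sub i5 i4, integral_mul_const, e2'] at e1
  have h3 := (mul_eq_zero.mp e1).resolve_left h2I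
  linear_combination h3

theorem a1_kdiff (a b : ℂ) (t : ℝ) (ha : (t : ℂ) - a ≠ 0) (hb : (t : ℂ) - b ≠ 0) :
    (a - b) / (((t : ℂ) - a) * ((t : ℂ) - b)) = 1 / ((t : ℂ) - a) - 1 / ((t : ℂ) - b) := by
  field_simp
  ring

theorem st_A1 : ST_A1 := by
  intro G A hc hd hA
  have hG0 : ∀ z ∈ Uc, ‖G z‖ ≤ (3 * |A|) * (1 + ‖z‖) ^ (1 / 2 : ℝ) := by
    intro z hz
    have h1 := a1_log ‖z‖ (norm_nonneg z)
    have h2 : 0 ≤ Real.log (1 + ‖z‖) := Real.log_nonneg (by linarith [norm_nonneg z])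
    calc ‖G z‖ ≤ A * (1 + Real.log (1 + ‖z‖)) := hA z hz
      _ ≤ |A| * (1 + Real.log (1 + ‖z‖)) := mul_le_mul_of_nonneg_right (le_abs_self A) (by linarith)
      _ ≤ |A| * (3 * (1 + ‖z‖) ^ (1 / 2 : ℝ)) := mul_le_mul_of_nonneg_left h1 (abs_nonneg A)
      _ = _ := by ring
  have hC : 0 ≤ 3 * |A| := by positivity
  have hpi : (Real.pi : ℂ) ≠ 0 := by exact_mod_cast Real.pi_ne_zero
  refine ⟨fun z hz => ?_, fun z₁ h₁ z₂ h₂ => ?_⟩
  · obtain ⟨i, e⟩ := a1_part1 G _ hC hc hd hG0 z hz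
    refine ⟨i, ?_⟩
    rw [e]
    push_cast
    field_simp
  · have hz₁ : 0 < z₁.im := h₁
    have hz₂ : 0 < z₂.im := h₂
    obtain ⟨i1, e1⟩ := a1_part1 G _ hC hc hd hG0 z₁ hz₁
    obtain ⟨i2, e2⟩ := a1_part1 G _ hC hc hd hG0 z₂ hz₂
    obtain ⟨i3, e3⟩ := a1_L2 G _ hC hc hd hG0 ((starRingEnd ℂ) z₁) ((starRingEnd ℂ) z₂)
      (by simpa using hz₁) (by simpa using hz₂)
    -- G (1/(t-z₁) - 1/(t-z₂)) = 2 i P₁ G - 2 i P₂ G + G (1/(t-z₁') - 1/(t-z₂'))
    have ek : ∀ t : ℝ, G t * (1 / ((t : ℂ) - z₁) - 1 / ((t : ℂ) - z₂))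
        = 2 * I * (((z₁.im / ((t - z₁.re) ^ 2 + z₁.im ^ 2) : ℝ) : ℂ) * G t)
          - 2 * I * (((z₂.im / ((t - z₂.re) ^ 2 + z₂.im ^ 2) : ℝ) : ℂ) * G t)
          + G t * (((starRingEnd ℂ) z₁ - (starRingEnd ℂ) z₂) /
            (((t : ℂ) - (starRingEnd ℂ) z₁) * ((t : ℂ) - (starRingEnd ℂ) z₂))) := by
      intro t
      have n1 := a1_real_ne hz₁ t
      have n2 := a1_real_ne hz₂ t
      have n3 : (t : ℂ) - (starRingEnd ℂ) z₁ ≠ 0 := a1_ne_of_im_neg (a1_mem_Uc_real t) (by simpa using hz₁)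
      have n4 : (t : ℂ) - (starRingEnd ℂ) z₂ ≠ 0 := a1_ne_of_im_neg (a1_mem_Uc_real t) (by simpa using hz₂)
      rw [a1_kdiff _ _ t n3 n4]
      have k1 := a1_kernel z₁ hz₁ t
      have k2 := a1_kernel z₂ hz₂ t
      rw [a1_kdiff _ _ t n1 n3] at k1
      rw [a1_kdiff _ _ t n2 n4] at k2
      linear_combination (-G t) * k2 + (G t) * k1
    have i4 : Integrable (fun t : ℝ => G t * (1 / ((t : ℂ) - z₁) - 1 / ((t : ℂ) - z₂))) := by
      refine (((i1.const_mul (2 * I)).sub (i2.const_mul (2 * I))).add i3).congr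
        (Filter.Eventually.of_forall fun t => ?_)
      exact (ek t).symm
    have e4 : ∫ t : ℝ, G t * (1 / ((t : ℂ) - z₁) - 1 / ((t : ℂ) - z₂)) = 2 * I * Real.pi * (G z₁ - G z₂) := by
      simp only [ek]
      have hs : Integrable (fun t : ℝ => 2 * I * (((z₁.im / ((t - z₁.re) ^ 2 + z₁.im ^ 2) : ℝ) : ℂ) * G t)
          - 2 * I * (((z₂.im / ((t - z₂.re) ^ 2 + z₂.im ^ 2) : ℝ) : ℂ) * G t)) :=
        (i1.const_mul (2 * I)).sub (i2.const_mul (2 * I))
      rw [integral_add hs i3,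
        integral_sub (i1.const_mul (2 * I)) (i2.const_mul (2 * I)), integral_const_mul, integral_const_mul,
        e1, e2, e3]
      ring
    -- conjugate of i3, e3
    have ec : ∀ t : ℝ, (starRingEnd ℂ) (G t * (((starRingEnd ℂ) z₁ - (starRingEnd ℂ) z₂) /
            (((t : ℂ) - (starRingEnd ℂ) z₁) * ((t : ℂ) - (starRingEnd ℂ) z₂))))
        = (starRingEnd ℂ) (G t) * (1 / ((t : ℂ) - z₁) - 1 / ((t : ℂ) - z₂)) := by
      intro t
      rw [← a1_kdiff _ _ t (a1_real_ne hz₁ t) (a1_real_ne hz₂ t)]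
      simp
    have i5 : Integrable (fun t : ℝ => (starRingEnd ℂ) (G t) * (1 / ((t : ℂ) - z₁) - 1 / ((t : ℂ) - z₂))) := by
      have h := (Complex.conjCLE.toContinuousLinearMap.integrable_comp i3)
      refine h.congr (Filter.Eventually.of_forall fun t => ?_)
      exact ec t
    have e5 : ∫ t : ℝ, (starRingEnd ℂ) (G t) * (1 / ((t : ℂ) - z₁) - 1 / ((t : ℂ) - z₂)) = 0 := by
      simp only [← ec]
      rw [integral_conj, e3, map_zero]
    have em : ∀ t : ℝ, (((G t).im : ℝ) : ℂ) * (1 / ((t : ℂ) - z₁) - 1 / ((t : ℂ) - z₂))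
        = (2 * I)⁻¹ * (G t * (1 / ((t : ℂ) - z₁) - 1 / ((t : ℂ) - z₂))
          - (starRingEnd ℂ) (G t) * (1 / ((t : ℂ) - z₁) - 1 / ((t : ℂ) - z₂))) := by
      intro t
      have h1 : G t - (starRingEnd ℂ) (G t) = 2 * I * ((G t).im : ℂ) := by
        rw [Complex.sub_conj]; push_cast; ring
      have h2I : (2 * I : ℂ) ≠ 0 := by simp
      rw [← sub_mul, h1]
      field_simp
    constructor
    · refine ((i4.sub i5).const_mul ((2 * I)⁻¹)).congr (Filter.Eventually.of_forall fun t => ?_)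
      exact (em t).symm
    · simp only [em]
      rw [integral_const_mul, integral_sub i4 i5, e4, e5]
      have h2I : (2 * I : ℂ) ≠ 0 := by simp
      push_cast
      field_simp
      ring

end

end Pool.Agent.Helper36.CV
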