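import Pool.Agent.Helper36.CV.StmtsO

set_option autoImplicit false

namespace Pool.Agent.Helper59.CV

open Filter Topology Pool.Agent.Helper36.CV

noncomputable section

/-- norm squared in l2(Z) -/
lemma norm_sq_l2 (f : L2) : ‖f‖ ^ 2 = ∑' k, ‖f k‖ ^ 2 := by
  have h := lp.norm_rpow_eq_tsum (p := 2) (by norm_num) f
  simpa using h

/-- a self-adjoint operator that is bounded below is invertible -/
lemma isUnit_of_below {H : Type*} [NormedAddCommGroup H] [InnerProductSpace ℂ H] [CompleteSpace H]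
    (S : H →L[ℂ] H) (hS : IsSelfAdjoint S) (c : ℝ) (hc : 0 < c) (h : ∀ u, c * ‖u‖ ≤ ‖S u‖) :
    IsUnit S := by
  have hker : S.ker = ⊥ := by
    rw [Submodule.eq_bot_iff]
    intro x hx
    have hx' : S x = 0 := hx
    have h1 := h x
    rw [hx', norm_zero] at h1
    have h2 : ‖x‖ ≤ 0 := by
      by_contra h3
      push Not at h3
      have := mul_pos hc h3
      linarith
    exact norm_le_zero_iff.mp h2
  have hinj : Function.Injective S := by
    have := LinearMap.ker_eq_bot.mp hker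
    exact this
  have hanti : AntilipschitzWith (⟨c⁻¹, (inv_pos.mpr hc).le⟩ : NNReal) S := by
    refine AddMonoidHomClass.antilipschitz_of_bound S ?_
    intro x
    have h1 := h x
    have : ‖x‖ ≤ c⁻¹ * ‖S x‖ := by
      rw [inv_mul_eq_div, le_div_iff₀ hc]
      linarith
    exact this
  have hcl : IsClosed (S.range : Set H) := by
    have := hanti.isClosed_range S.uniformContinuous
    exact this
  have hort : S.rangeᗮ = ⊥ := by
    have h1 := ContinuousLinearMap.orthogonal_range S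
    have h2 : ContinuousLinearMap.adjoint S = S := hS
    rw [h2] at h1
    rw [h1, hker]
  have hrange : S.range = ⊤ := by
    have h1 : S.range.topologicalClosure = ⊤ := by
      rw [Submodule.topologicalClosure_eq_top_iff, hort]
    rw [← h1]
    exact (IsClosed.submodule_topologicalClosure_eq hcl).symm
  rw [ContinuousLinearMap.isUnit_iff_bijective]
  refine ⟨hinj, ?_⟩
  intro y
  have : y ∈ S.range := by rw [hrange]; trivial
  exact this

/-- the element of l2 of a finitely supported function -/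
def ofFin (u : ℤ → ℂ) (hu : u.support.Finite) : L2 :=
  ⟨u, memℓp_gen (by
    refine summable_of_hasFiniteSupport (hu.subset ?_)
    intro k hk hk2
    apply hk
    simp [hk2])⟩

lemma ofFin_apply (u : ℤ → ℂ) (hu : u.support.Finite) (k : ℤ) : ofFin u hu k = u k := rfl

theorem O10 : ST_O10 := by
  intro l T hT hH E
  have hS : IsSelfAdjoint (T - (E : ℂ) • (1 : L2 →L[ℂ] L2)) := by
    refine hT.sub ?_
    rw [IsSelfAdjoint, star_smul, star_one]
    congr 1
    exact Complex.conj_ofReal E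
  have happ : ∀ (u : L2) (k : ℤ), (T - (E : ℂ) • (1 : L2 →L[ℂ] L2)) u k =
      hop l (fun j => u j) k - (E : ℂ) * u k := by
    intro u k
    have : (T - (E : ℂ) • (1 : L2 →L[ℂ] L2)) u = T u - (E : ℂ) • u := rfl
    rw [this, lp.coeFn_sub, Pi.sub_apply, hH u k, lp.coeFn_smul, Pi.smul_apply, smul_eq_mul]
  have hmem : E ∈ Sp T ↔ ¬ IsUnit (T - (E : ℂ) • (1 : L2 →L[ℂ] L2)) := by
    rw [Sp, Set.mem_ofPred_eq, spectrum.mem_iff, Algebra.algebraMap_eq_smul_one,
      IsUnit.sub_iff]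
  rw [hmem]
  constructor
  · intro hnu δ hδ
    set c : ℝ := Real.sqrt δ with hc
    have hcpos : 0 < c := Real.sqrt_pos.mpr hδ
    have hc2 : c ^ 2 = δ := Real.sq_sqrt hδ.le
    have hex : ∃ v : L2, ‖(T - (E : ℂ) • (1 : L2 →L[ℂ] L2)) v‖ < c * ‖v‖ := by
      by_contra hno
      push Not at hno
      exact hnu (isUnit_of_below _ hS c hcpos hno)
    obtain ⟨v, hv⟩ := hex
    have hopen : IsOpen {w : L2 | ‖(T - (E : ℂ) • (1 : L2 →L[ℂ] L2)) w‖ < c * ‖w‖} := by
      refine isOpen_lt ?_ ?_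
      · exact continuous_norm.comp (ContinuousLinearMap.continuous _)
      · exact continuous_const.mul continuous_norm
    have hlim := lp.hasSum_single (E := fun _ : ℤ => ℂ) (p := 2) (by norm_num) v
    have hev := hlim (hopen.mem_nhds hv)
    obtain ⟨s, hs⟩ := (Filter.Eventually.exists (f := (SummationFilter.unconditional ℤ).filter) hev)
    have hs' : ‖(T - (E : ℂ) • (1 : L2 →L[ℂ] L2)) (∑ i ∈ s, lp.single 2 i (v i))‖ <
        c * ‖∑ i ∈ s, lp.single (E := fun _ : ℤ => ℂ) 2 i (v i)‖ := hs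
    set w : L2 := ∑ i ∈ s, lp.single (E := fun _ : ℤ => ℂ) 2 i (v i) with hw
    have hwne : w ≠ 0 := by
      intro h0
      rw [h0] at hs'
      simp at hs'
    have hwk : ∀ k, k ∉ s → w k = 0 := by
      intro k hk
      rw [hw, lp.coeFn_sum, Finset.sum_apply]
      refine Finset.sum_eq_zero ?_
      intro i hi
      have : k ≠ i := fun h => hk (h ▸ hi)
      rw [lp.single_apply_ne]
      exact this
    refine ⟨fun k => w k, ?_, ?_, ?_⟩
    · refine (Finset.finite_toSet s).subset ?_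
      intro k hk
      by_contra h
      exact hk (hwk k h)
    · intro h0
      apply hwne
      ext k
      have := congrFun h0 k
      simpa using this
    · have h1 : ∑' k, ‖hop l (fun k => w k) k - (E : ℂ) * w k‖ ^ 2 =
          ‖(T - (E : ℂ) • (1 : L2 →L[ℂ] L2)) w‖ ^ 2 := by
        rw [norm_sq_l2]
        exact tsum_congr fun k => by rw [happ]
      rw [h1, ← norm_sq_l2 w, ← hc2, ← mul_pow]
      exact pow_le_pow_left₀ (norm_nonneg _) hs'.le 2
  · intro hAE hunit
    obtain ⟨R, hR⟩ := hunit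
    have hbd : ∀ u : L2, ‖u‖ ≤ ‖((R⁻¹ : (L2 →L[ℂ] L2)ˣ) : L2 →L[ℂ] L2)‖ *
        ‖(T - (E : ℂ) • (1 : L2 →L[ℂ] L2)) u‖ := by
      intro u
      have h1 : ((R⁻¹ : (L2 →L[ℂ] L2)ˣ) : L2 →L[ℂ] L2) ((T - (E : ℂ) • (1 : L2 →L[ℂ] L2)) u) = u := by
        rw [← hR, ← mul_apply_eq_comp, Units.inv_mul]
        rfl
      calc ‖u‖ = ‖((R⁻¹ : (L2 →L[ℂ] L2)ˣ) : L2 →L[ℂ] L2)
            ((T - (E : ℂ) • (1 : L2 →L[ℂ] L2)) u)‖ := by rw [h1]
        _ ≤ _ := ContinuousLinearMap.le_opNorm _ _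
    set B : ℝ := ‖((R⁻¹ : (L2 →L[ℂ] L2)ˣ) : L2 →L[ℂ] L2)‖ with hB
    have hB0 : 0 ≤ B := norm_nonneg _
    set δ : ℝ := 1 / (2 * (B ^ 2 + 1)) with hδ
    have hδ0 : 0 < δ := by positivity
    obtain ⟨u, hfin, hne, hle⟩ := hAE δ hδ0
    set w : L2 := ofFin u hfin with hw
    have h1 : ∑' k, ‖hop l u k - (E : ℂ) * u k‖ ^ 2 =
          ‖(T - (E : ℂ) • (1 : L2 →L[ℂ] L2)) w‖ ^ 2 := by
      rw [norm_sq_l2]
      refine tsum_congr fun k => ?_
      rw [happ]
      rfl
    have h2 : ∑' k, ‖u k‖ ^ 2 = ‖w‖ ^ 2 := by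
      rw [norm_sq_l2]
      rfl
    rw [h1, h2] at hle
    have hwne : w ≠ 0 := by
      intro h0
      apply hne
      funext k
      have : w k = 0 := by rw [h0]; rfl
      exact this
    have hwpos : 0 < ‖w‖ := norm_pos_iff.mpr hwne
    have h3 := hbd w
    have h4 : ‖w‖ ^ 2 ≤ B ^ 2 * ‖(T - (E : ℂ) • (1 : L2 →L[ℂ] L2)) w‖ ^ 2 := by
      rw [← mul_pow]
      exact pow_le_pow_left₀ (norm_nonneg _) h3 2
    have h5 : ‖w‖ ^ 2 ≤ B ^ 2 * (δ * ‖w‖ ^ 2) := h4.trans (mul_le_mul_of_nonneg_left hle (by positivity))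
    have h6 : B ^ 2 * δ < 1 := by
      rw [hδ, mul_one_div, div_lt_one (by positivity)]
      nlinarith [sq_nonneg B]
    have h7 : 0 < ‖w‖ ^ 2 := by positivity
    nlinarith

end

end Pool.Agent.Helper59.CV
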