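import Mathlib
import Pool.Agent.Helper36.CV.StmtsR

set_option autoImplicit false

namespace Pool.Agent.Helper36.CV

open Complex Filter Topology MeasureTheory Set

noncomputable section

/-- perturbation of a slope: from the law to the bound for a_V -/
theorem r7_slope (W1 W2 D0 P0 p k d ρ η A : ℝ) (hρ : 0 < ρ) (hd : 0 < d) (hd2 : d ≤ 11 / 10 * ρ) (hp : 0 < p)
    (hη : 0 ≤ η) (hη1 : η ≤ 1 / 10000) (hD0 : 0 < D0) (hW : W1 < W2) (hk : 0 < k)
    (hA : A = (W2 - W1) / (d * D0)) (hA2 : A ≤ 15 / 10)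
    (h1 : |p - P0 * (W2 - W1)| ≤ 2 * η * p) (h2 : P0 * D0 - 3 * η * p / ρ ≤ k) :
    0 < A ∧ p / (d * k) ≤ A * (1 + 10 * η) := by
  have hdD : 0 < d * D0 := mul_pos hd hD0
  have hA0 : 0 < A := by
    rw [hA]
    exact div_pos (by linarith) hdD
  refine ⟨hA0, ?_⟩
  have hAd : A * (d * D0) = W2 - W1 := by
    rw [hA]
    field_simp
  have hηp : 0 ≤ η * p := mul_nonneg hη hp.le
  have h3 : p * (1 - 2 * η) ≤ P0 * (W2 - W1) := by
    have := (abs_le.mp h1).2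
    have e : p * (1 - 2 * η) = p - 2 * η * p := by ring
    linarith
  have h4 : 3 * η * p / ρ * d ≤ 33 / 10 * (η * p) := by
    rw [div_mul_eq_mul_div, div_le_iff₀ hρ]
    have : 3 * (η * p) * d ≤ 3 * (η * p) * (11 / 10 * ρ) := mul_le_mul_of_nonneg_left hd2 (by positivity)
    linarith
  have h5 : P0 * D0 * d - 33 / 10 * (η * p) ≤ d * k := by
    have h6 : (P0 * D0 - 3 * η * p / ρ) * d ≤ k * d := mul_le_mul_of_nonneg_right h2 hd.le
    have h7 : (P0 * D0 - 3 * η * p / ρ) * d = P0 * D0 * d - 3 * η * p / ρ * d := by ring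
    linarith
  have h6 : A * (P0 * D0 * d) = P0 * (W2 - W1) := by
    rw [← hAd]
    ring
  have h7 : A * (P0 * D0 * d - 33 / 10 * (η * p)) ≤ A * (d * k) := mul_le_mul_of_nonneg_left h5 hA0.le
  have h8 : A * (η * p) ≤ 15 / 10 * (η * p) := mul_le_mul_of_nonneg_right hA2 hηp
  have h9 : p * (1 - 9 * η) ≤ A * (d * k) := by
    have e1 : A * (P0 * D0 * d - 33 / 10 * (η * p)) = P0 * (W2 - W1) - 33 / 10 * (A * (η * p)) := by
      rw [mul_sub, h6]
      ring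
    have e2 : p * (1 - 9 * η) = p * (1 - 2 * η) - 7 * (η * p) := by ring
    linarith
  have hdk : 0 < d * k := mul_pos hd hk
  rw [div_le_iff₀ hdk]
  have h11 : p * (1 - 9 * η) * (1 + 10 * η) ≤ A * (d * k) * (1 + 10 * η) :=
    mul_le_mul_of_nonneg_right h9 (by linarith)
  have h12 : 0 ≤ p * (η * (1 - 90 * η)) := by
    apply mul_nonneg hp.le
    apply mul_nonneg hη
    linarith
  have e3 : p * (1 - 9 * η) * (1 + 10 * η) = p + p * (η * (1 - 90 * η)) := by ring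
  have e4 : A * (d * k) * (1 + 10 * η) = A * (1 + 10 * η) * (d * k) := by ring
  linarith

/-- the ratio of the q's -/
theorem r7_ratio (h τL τR ρ D : ℝ) (hh : 0 ≤ h) (hρ : 0 < ρ)
    (hD : 7 / 5 * ρ ≤ D) (hLh : D - 51 / 100 * ρ ≤ τL - h) (hRh : τR - h ≤ D + 51 / 100 * ρ) (hLR : τL < τR) :
    Real.sqrt (τR ^ 2 - h ^ 2) ≤ 215 / 100 * Real.sqrt (τL ^ 2 - h ^ 2) := by
  have hm1 : τR - h ≤ 215 / 100 * (τL - h) := by linarith
  have hm2 : τR + h ≤ 215 / 100 * (τL + h) := by linarith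
  have : τR ^ 2 - h ^ 2 ≤ (215 / 100) ^ 2 * (τL ^ 2 - h ^ 2) := by
    have h1 : (τR - h) * (τR + h) ≤ (215 / 100 * (τL - h)) * (215 / 100 * (τL + h)) := by
      apply mul_le_mul hm1 hm2 (by linarith)
      have : 0 < τL - h := by linarith
      positivity
    have e1 : (τR - h) * (τR + h) = τR ^ 2 - h ^ 2 := by ring
    have e2 : (215 / 100 * (τL - h)) * (215 / 100 * (τL + h)) = (215 / 100) ^ 2 * (τL ^ 2 - h ^ 2) := by ring
    linarith
  calc Real.sqrt (τR ^ 2 - h ^ 2) ≤ Real.sqrt ((215 / 100) ^ 2 * (τL ^ 2 - h ^ 2)) := Real.sqrt_le_sqrt this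
    _ = 215 / 100 * Real.sqrt (τL ^ 2 - h ^ 2) := by
      rw [Real.sqrt_mul (by positivity), Real.sqrt_sq (by norm_num)]

/-- upper bound for u_q -/
theorem r7_uq (h τL τR qL qR ρ D : ℝ) (hh : 0 ≤ h) (hρ : 0 < ρ) (hqL : 0 < qL) (hLq : qL < qR)
    (hD : 7 / 5 * ρ ≤ D) (hLh : D - 51 / 100 * ρ ≤ τL - h) (hRh : τR - h ≤ D + 51 / 100 * ρ) (hLR : τL < τR)
    (hd1 : 9 / 10 * ρ ≤ τR - τL) (hqR : qR ^ 2 = τR ^ 2 - h ^ 2)
    (a3 : (qR - qL) * (qL + qR) = (τR - τL) * (τL + τR)) :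
    (qL + qR) / (qR - qL) ≤ 61 / 10 * (D / ρ) := by
  have hqq : 0 < qR - qL := by linarith
  have hτ : 0 < τL + τR := by linarith
  have hd : 0 < τR - τL := by linarith
  have hDp : 0 < D := by linarith
  have h1 : (qL + qR) / (qR - qL) = (qL + qR) ^ 2 / ((τR - τL) * (τL + τR)) := by
    rw [div_eq_div_iff (by positivity) (by positivity), ← a3]
    ring
  have h2 : (qL + qR) ^ 2 ≤ 4 * qR ^ 2 := by
    have : qL + qR ≤ 2 * qR := by linarith
    calc (qL + qR) ^ 2 ≤ (2 * qR) ^ 2 := by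
          apply pow_le_pow_left₀ (by linarith) this
      _ = 4 * qR ^ 2 := by ring
  rw [h1, div_le_iff₀ (by positivity)]
  have h4 : 4 * (τR ^ 2 - h ^ 2) ≤ 4 * (D + 51 / 100 * ρ) * (τL + τR) := by
    have h5 : τR ^ 2 - h ^ 2 = (τR - h) * (τR + h) := by ring
    rw [h5]
    have h6 : (τR - h) * (τR + h) ≤ (D + 51 / 100 * ρ) * (τL + τR) := by
      apply mul_le_mul hRh (by linarith) (by linarith) (by positivity)
    linarith
  have h7 : 4 * (D + 51 / 100 * ρ) ≤ 61 / 10 * (D / ρ) * (τR - τL) := by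
    have h8 : 61 / 10 * (D / ρ) * (9 / 10 * ρ) ≤ 61 / 10 * (D / ρ) * (τR - τL) :=
      mul_le_mul_of_nonneg_left hd1 (by positivity)
    have h9 : 61 / 10 * (D / ρ) * (9 / 10 * ρ) = 549 / 100 * D := by
      field_simp
      norm_num
    rw [h9] at h8
    linarith
  have h10 : 4 * (D + 51 / 100 * ρ) * (τL + τR) ≤ 61 / 10 * (D / ρ) * (τR - τL) * (τL + τR) :=
    mul_le_mul_of_nonneg_right h7 (by positivity)
  have e1 : 61 / 10 * (D / ρ) * ((τR - τL) * (τL + τR)) = 61 / 10 * (D / ρ) * (τR - τL) * (τL + τR) := by ring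
  rw [hqR] at h2
  linarith

/-- A versus alpha -/
theorem r7_Ag (Wd Q B d q τ D0 : ℝ) (hB0 : 0 ≤ B) (hB1 : B ≤ 1 / 10000) (hd : 0 < d) (hQ : 0 < Q)
    (hW : Wd ≤ (1 + 10 * B) * Q) (hq : 0 < q) (hτ : 0 < τ) (hD0 : 0 < D0) (hh1 : |D0 - τ / q| ≤ 10 * B * (τ / q)) :
      Wd / (d * D0) ≤ (1 + 30 * B) * (Q * q / (d * τ)) := by
  have h1 : (1 - 10 * B) * (τ / q) ≤ D0 := by
    have := (abs_le.mp hh1).1
    have e : (1 - 10 * B) * (τ / q) = τ / q - 10 * B * (τ / q) := by ring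
    linarith
  rw [div_le_iff₀ (by positivity)]
  have h2 : (1 + 30 * B) * (Q * q / (d * τ)) * (d * ((1 - 10 * B) * (τ / q))) ≤
      (1 + 30 * B) * (Q * q / (d * τ)) * (d * D0) := by
    apply mul_le_mul_of_nonneg_left
    · exact mul_le_mul_of_nonneg_left h1 hd.le
    · positivity
  have h3 : (1 + 30 * B) * (Q * q / (d * τ)) * (d * ((1 - 10 * B) * (τ / q))) =
      (1 + 30 * B) * (1 - 10 * B) * Q := by
    field_simp
  rw [h3] at h2
  have h4 : (1 + 10 * B) * Q ≤ (1 + 30 * B) * (1 - 10 * B) * Q := by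
    apply mul_le_mul_of_nonneg_right _ hQ.le
    have : 0 ≤ B * (1 - 30 * B) := mul_nonneg hB0 (by linarith)
    nlinarith only [this]
  linarith

/-- u versus UW -/
theorem r7_diff (nL nR P0 WL WR p η u UW : ℝ) (hp : 0 < p) (hη : 0 ≤ η) (hUW1 : 1 ≤ UW)
    (hUWp : UW * (WR - WL) = WL + WR) (hup : u * p = nL + nR) (hpp : |p - P0 * (WR - WL)| ≤ 2 * η * p)
    (e1 : |nL - P0 * WL| ≤ η * p) (e2 : |nR - P0 * WR| ≤ η * p) : |u - UW| ≤ 4 * η * UW := by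
  obtain ⟨θ1, hθ1⟩ : ∃ θ, θ = (nL + nR) - P0 * (WL + WR) := ⟨_, rfl⟩
  obtain ⟨θ2, hθ2⟩ : ∃ θ, θ = P0 * (WR - WL) - p := ⟨_, rfl⟩
  have hθ1b : |θ1| ≤ 2 * η * p := by
    have h1 : θ1 = (nR - P0 * WR) + (nL - P0 * WL) := by rw [hθ1]; ring
    rw [h1]
    calc |(nR - P0 * WR) + (nL - P0 * WL)| ≤ |nR - P0 * WR| + |nL - P0 * WL| := abs_add_le _ _
      _ ≤ 2 * η * p := by linarith
  have hθ2b : |θ2| ≤ 2 * η * p := by
    rw [hθ2, abs_sub_comm]
    exact hpp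
  have h2 : (u - UW) * p = θ1 + UW * θ2 := by
    have : UW * θ2 = P0 * (UW * (WR - WL)) - UW * p := by rw [hθ2]; ring
    rw [this, hUWp, hθ1, sub_mul, hup]
    ring
  have h3 : |u - UW| * p ≤ 4 * η * UW * p := by
    calc |u - UW| * p = |(u - UW) * p| := by rw [abs_mul, abs_of_pos hp]
      _ = |θ1 + UW * θ2| := by rw [h2]
      _ ≤ |θ1| + |UW * θ2| := abs_add_le _ _
      _ = |θ1| + UW * |θ2| := by rw [abs_mul, abs_of_pos (by linarith : 0 < UW)]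
      _ ≤ 2 * η * p + UW * (2 * η * p) := by
        have : UW * |θ2| ≤ UW * (2 * η * p) := mul_le_mul_of_nonneg_left hθ2b (by linarith)
        linarith
      _ ≤ 4 * η * UW * p := by
        have : 2 * η * p * 1 ≤ 2 * η * p * UW := mul_le_mul_of_nonneg_left hUW1 (by positivity)
        linarith
  exact le_of_mul_le_mul_right h3 hp

/-- final combination, lower side -/
theorem r7_low (u UW AL aL uq αL B η X : ℝ) (hu : 0 < u) (hη : 0 ≤ η) (hUW : 0 < UW) (hX : 0 ≤ X)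
    (haL : aL ≤ AL * (1 + 10 * η)) (hAL0 : 0 < AL) (hAL : AL ≤ 2) (hdiff : |u - UW| ≤ 4 * η * UW)
    (huη : u * η ≤ 7 * X) (hUWη : UW * η ≤ 7 * X) (huq : 0 < uq) (hα : αL ≤ 1)
    (b9 : |UW * (1 - AL) - uq * (1 - αL)| ≤ 100 * B) :
    -(100 * B + 1000 * X) ≤ u * (1 - aL) := by
  have h1 : u * (1 - AL * (1 + 10 * η)) ≤ u * (1 - aL) := by
    apply mul_le_mul_of_nonneg_left _ hu.le
    linarith
  have h2 : u * (1 - AL * (1 + 10 * η)) = UW * (1 - AL) + (u - UW) * (1 - AL) - 10 * (u * η) * AL := by ring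
  have h3 : |(u - UW) * (1 - AL)| ≤ 4 * η * UW := by
    rw [abs_mul]
    have : |1 - AL| ≤ 1 := by
      rw [abs_le]
      constructor <;> linarith
    calc |u - UW| * |1 - AL| ≤ (4 * η * UW) * 1 := by
          apply mul_le_mul hdiff this (abs_nonneg _) (by positivity)
      _ = 4 * η * UW := by ring
  have h4 := (abs_le.mp h3).1
  have h5 := (abs_le.mp b9).1
  have h6 : 0 ≤ uq * (1 - αL) := mul_nonneg (by linarith) (by linarith)
  have h7 : 10 * (u * η) * AL ≤ 10 * (7 * X) * 2 := by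
    apply mul_le_mul _ (by linarith) hAL0.le (by positivity)
    linarith
  have h8 : 4 * η * UW = 4 * (UW * η) := by ring
  linarith

/-- final combination, upper side -/
theorem r7_upp (u UW AR aR uq αR B η X G : ℝ) (hu : 0 < u) (hη : 0 ≤ η) (hUW : 0 < UW) (hX : 0 ≤ X)
    (haR : aR ≤ AR * (1 + 10 * η)) (hAR0 : 0 < AR) (hAR : AR ≤ 2) (hdiff : |u - UW| ≤ 4 * η * UW)
    (huη : u * η ≤ 7 * X) (hUWη : UW * η ≤ 7 * X) (hα : uq * (αR - 1) = 1 - G)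
    (b10 : |UW * (AR - 1) - uq * (αR - 1)| ≤ 100 * B) :
    u * (aR - 1) ≤ 1 - G + (100 * B + 1000 * X) := by
  have h1 : u * (aR - 1) ≤ u * (AR * (1 + 10 * η) - 1) := by
    apply mul_le_mul_of_nonneg_left _ hu.le
    linarith
  have h2 : u * (AR * (1 + 10 * η) - 1) = UW * (AR - 1) + (u - UW) * (AR - 1) + 10 * (u * η) * AR := by ring
  have h3 : |(u - UW) * (AR - 1)| ≤ 4 * η * UW := by
    rw [abs_mul]
    have : |AR - 1| ≤ 1 := by
      rw [abs_le]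
      constructor <;> linarith
    calc |u - UW| * |AR - 1| ≤ (4 * η * UW) * 1 := by
          apply mul_le_mul hdiff this (abs_nonneg _) (by positivity)
      _ = 4 * η * UW := by ring
  have h4 := (abs_le.mp h3).2
  have h5 := (abs_le.mp b10).2
  rw [hα] at h5
  have h7 : 10 * (u * η) * AR ≤ 10 * (7 * X) * 2 := by
    apply mul_le_mul _ (by linarith) hAR0.le (by positivity)
    linarith
  have h8 : 4 * η * UW = 4 * (UW * η) := by ring
  linarith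

theorem r7_A (hL1 : ST_L1) (hL2 : ST_L2)
    (h τL τR c XL XR ρ D P0 nL nR kL kR η : ℝ) (hh : 0 ≤ h) (hρ : 0 < ρ)
    (hD : 7 / 5 * ρ ≤ D) (hLh : D - 51 / 100 * ρ ≤ τL - h) (hRh : τR - h ≤ D + 51 / 100 * ρ)
    (hXL : |XL| ≤ ρ) (hXR : |XR| ≤ ρ) (hX : XR - XL = τR - τL) (hd1 : 9 / 10 * ρ ≤ τR - τL)
    (hd2 : τR - τL ≤ 11 / 10 * ρ)
    (hc : |c| * D ≤ 1 / 100000) (hη : 0 ≤ η) (hη1 : η ≤ 1 / 100000) (hnL : 0 < nL) (hp : nL < nR)
    (hkL : 0 < kL) (hkR : 0 < kR)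
    (e1 : |nL - P0 * (Real.sqrt (τL ^ 2 - h ^ 2) * (1 + c * XL))| ≤ η * (nR - nL))
    (e2 : |nR - P0 * (Real.sqrt (τR ^ 2 - h ^ 2) * (1 + c * XR))| ≤ η * (nR - nL))
    (e3 : P0 * (τL / Real.sqrt (τL ^ 2 - h ^ 2) * (1 + c * XL) + c * Real.sqrt (τL ^ 2 - h ^ 2))
      - 3 * η * (nR - nL) / ρ ≤ kL)
    (e4 : P0 * (τR / Real.sqrt (τR ^ 2 - h ^ 2) * (1 + c * XR) + c * Real.sqrt (τR ^ 2 - h ^ 2))
      - 3 * η * (nR - nL) / ρ ≤ kR) :
    ∃ G : ℝ, (Real.sqrt (τL ^ 2 - h ^ 2) / τL) ^ 2 ≤ G ∧ (nL + nR) / (nR - nL) ≤ 7 * D / ρ ∧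
      (nR - nL) / ((τR - τL) * kL) ≤ 101 / 100 ∧ (nR - nL) / ((τR - τL) * kR) ≤ 14 / 10 ∧
      (nR - nL) / ((τR - τL) * kL) + (nR - nL) / ((τR - τL) * kR) ≤ 2002 / 1000 ∧
      -(100 * |c| * D + 1000 * η * D / ρ) ≤ (nL + nR) / (nR - nL) * (1 - (nR - nL) / ((τR - τL) * kL)) ∧
      (nL + nR) / (nR - nL) * ((nR - nL) / ((τR - τL) * kR) - 1) ≤ 1 - G + (100 * |c| * D + 1000 * η * D / ρ) := by
  have hDpos : 0 < D := by linarith
  have hhL : h < τL := by linarith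
  have hLR : τL < τR := by linarith
  have hratio := r7_ratio h τL τR ρ D hh hρ hD hLh hRh hLR
  have hqRsq : Real.sqrt (τR ^ 2 - h ^ 2) ^ 2 = τR ^ 2 - h ^ 2 := by
    rw [Real.sq_sqrt]
    have : h ^ 2 ≤ τR ^ 2 := pow_le_pow_left₀ hh (by linarith) 2
    linarith
  obtain ⟨qL, hqL⟩ : ∃ q, q = Real.sqrt (τL ^ 2 - h ^ 2) := ⟨_, rfl⟩
  obtain ⟨qR, hqR⟩ : ∃ q, q = Real.sqrt (τR ^ 2 - h ^ 2) := ⟨_, rfl⟩
  rw [← hqL] at e1 e3 hratio ⊢
  rw [← hqR] at e2 e4 hratio hqRsq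
  obtain ⟨g, hg⟩ : ∃ g, g = (qL + qR) / (τL + τR) := ⟨_, rfl⟩
  obtain ⟨uq, huq⟩ : ∃ u, u = (qL + qR) / (qR - qL) := ⟨_, rfl⟩
  obtain ⟨a1, a2, a3, a4, a5, a6, a7, a8, a9, a10, a11, a12, a13, a14⟩ :=
    hL1 h τL τR qL qR g uq hh hhL hLR hqL hqR hg huq
  obtain ⟨WL, hWL⟩ : ∃ u, u = qL * (1 + c * XL) := ⟨_, rfl⟩
  obtain ⟨WR, hWR⟩ : ∃ u, u = qR * (1 + c * XR) := ⟨_, rfl⟩
  obtain ⟨DL, hDL⟩ : ∃ u, u = τL / qL * (1 + c * XL) + c * qL := ⟨_, rfl⟩
  obtain ⟨DR, hDR⟩ : ∃ u, u = τR / qR * (1 + c * XR) + c * qR := ⟨_, rfl⟩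
  obtain ⟨b1, b2, b3, b4, b5, b6, b7, b8, b9, b10⟩ :=
    hL2 h τL τR qL qR c XL XR ρ D WL WR DL DR hh hhL hLR hqL hqR hρ (by linarith) (by linarith) (by linarith)
      hXL hXR hX (by linarith) (by linarith) hWL hWR hDL hDR
  have huq2 : uq ≤ 61 / 10 * (D / ρ) := by
    rw [huq]
    exact r7_uq h τL τR qL qR ρ D hh hρ a1 a2 hD hLh hRh hLR hd1 hqRsq a3
  clear hqRsq
  rw [← hWL] at e1
  rw [← hWR] at e2
  rw [← hDL] at e3
  rw [← hDR] at e4
  obtain ⟨d, hd⟩ : ∃ d, d = τR - τL := ⟨_, rfl⟩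
  obtain ⟨p, hpd⟩ : ∃ p, p = nR - nL := ⟨_, rfl⟩
  obtain ⟨B, hB⟩ : ∃ B, B = |c| * D := ⟨_, rfl⟩
  have hB0 : 0 ≤ B := by rw [hB]; positivity
  have hBs : 100 * |c| * D = 100 * B := by rw [hB]; ring
  rw [← hd] at a3 a6 a7 a13 a14 hd1 hd2 b9 b10 a4 a5 ⊢
  rw [← hpd] at e1 e2 e3 e4 ⊢
  rw [hBs] at b9 b10 ⊢
  have hB5 : |(WR - WL) - (qR - qL)| ≤ 10 * B * (qR - qL) := by
    have : 10 * |c| * D * (qR - qL) = 10 * B * (qR - qL) := by rw [hB]; ring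
    linarith
  have hB6 : |DL - τL / qL| ≤ 10 * B * (τL / qL) := by
    have : 10 * |c| * D * (τL / qL) = 10 * B * (τL / qL) := by rw [hB]; ring
    linarith
  have hB7 : |DR - τR / qR| ≤ 10 * B * (τR / qR) := by
    have : 10 * |c| * D * (τR / qR) = 10 * B * (τR / qR) := by rw [hB]; ring
    linarith
  have hB1 : B ≤ 1 / 100000 := by rw [hB]; exact hc
  have hp0 : 0 < p := by rw [hpd]; linarith
  have hd0 : 0 < d := by linarith
  have hτL : 0 < τL := by linarith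
  have hτR : 0 < τR := by linarith
  have hqq : 0 < qR - qL := by linarith
  have hqR0 : 0 < qR := by linarith
  -- alpha's
  obtain ⟨αL, hαL⟩ : ∃ u, u = (qR - qL) * qL / (d * τL) := ⟨_, rfl⟩
  obtain ⟨αR, hαR⟩ : ∃ u, u = (qR - qL) * qR / (d * τR) := ⟨_, rfl⟩
  rw [← hαL] at a4 b9
  rw [← hαR] at a5 b10
  rw [← huq] at b8 b9 b10
  have hαL1 : αL ≤ 1 := by
    rw [hαL, div_le_one (by positivity)]
    exact a13
  have hαL0 : 0 < αL := by
    rw [hαL]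
    positivity
  have hαR0 : 0 < αR := by
    rw [hαR]
    positivity
  have hαs : αL + αR ≤ 2 := by
    have : αL + αR = (qR - qL) * (qL / τL + qR / τR) / d := by
      rw [hαL, hαR]
      field_simp
    rw [this, div_le_iff₀ hd0]
    exact a7
  have huq1 : 27 / 10 ≤ uq := by
    rw [huq, le_div_iff₀ hqq]
    linarith
  have hαR1 : αR ≤ 1 + 10 / 27 := by
    have h1 : uq * (αR - 1) ≤ 1 := by
      rw [a5]
      have : 0 ≤ g ^ 2 := sq_nonneg g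
      linarith
    by_contra hcon
    push Not at hcon
    have h2 : 10 / 27 < αR - 1 := by linarith
    have h3 : (27 / 10 : ℝ) * (10 / 27) < uq * (αR - 1) := by
      apply mul_lt_mul' huq1 h2 (by norm_num) (by linarith)
    norm_num at h3
    linarith
  -- A's
  obtain ⟨AL, hAL⟩ : ∃ u, u = (WR - WL) / (d * DL) := ⟨_, rfl⟩
  obtain ⟨AR, hAR⟩ : ∃ u, u = (WR - WL) / (d * DR) := ⟨_, rfl⟩
  rw [← hAL] at b9
  rw [← hAR] at b10
  have hWWu : WR - WL ≤ (1 + 10 * B) * (qR - qL) := by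
    have := (abs_le.mp hB5).2
    have e : (1 + 10 * B) * (qR - qL) = (qR - qL) + 10 * B * (qR - qL) := by ring
    linarith
  have hAL1 : AL ≤ (1 + 30 * B) * αL := by
    rw [hAL, hαL]
    exact r7_Ag (WR - WL) (qR - qL) B d qL τL DL hB0 (by linarith) hd0 hqq hWWu a1 hτL b1 hB6
  have hAR1 : AR ≤ (1 + 30 * B) * αR := by
    rw [hAR, hαR]
    exact r7_Ag (WR - WL) (qR - qL) B d qR τR DR hB0 (by linarith) hd0 hqq hWWu hqR0 hτR b2 hB7
  have hBαL : B * αL ≤ 1 / 100000 * 1 := mul_le_mul hB1 hαL1 hαL0.le (by norm_num)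
  have hBαR : B * αR ≤ 1 / 100000 * 2 := mul_le_mul hB1 (by linarith) hαR0.le (by norm_num)
  have eL : (1 + 30 * B) * αL = αL + 30 * (B * αL) := by ring
  have eR : (1 + 30 * B) * αR = αR + 30 * (B * αR) := by ring
  have hALu : AL ≤ 1003 / 1000 := by linarith
  have hARu : AR ≤ 138 / 100 := by linarith
  have hAsum : AL + AR ≤ 2001 / 1000 := by linarith
  -- label differences
  have hpp : |p - P0 * (WR - WL)| ≤ 2 * η * p := by
    have h1 : p - P0 * (WR - WL) = (nR - P0 * WR) - (nL - P0 * WL) := by rw [hpd]; ring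
    rw [h1]
    calc |(nR - P0 * WR) - (nL - P0 * WL)| ≤ |nR - P0 * WR| + |nL - P0 * WL| := abs_sub _ _
      _ ≤ 2 * η * p := by linarith
  obtain ⟨hAL0, haL⟩ := r7_slope WL WR DL P0 p kL d ρ η AL hρ hd0 hd2 hp0 hη (by linarith) b1 b4 hkL hAL (by linarith) hpp e3
  obtain ⟨hAR0, haR⟩ := r7_slope WL WR DR P0 p kR d ρ η AR hρ hd0 hd2 hp0 hη (by linarith) b2 b4 hkR hAR (by linarith) hpp e4
  -- u
  obtain ⟨UW, hUW⟩ : ∃ u, u = (WL + WR) / (WR - WL) := ⟨_, rfl⟩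
  rw [← hUW] at b8 b9 b10
  obtain ⟨u, hu⟩ : ∃ u, u = (nL + nR) / p := ⟨_, rfl⟩
  rw [← hu]
  have hup : u * p = nL + nR := by rw [hu]; field_simp
  have hWp : 0 < WR - WL := by linarith
  have hUWp : UW * (WR - WL) = WL + WR := by rw [hUW]; field_simp
  have hUW1 : 1 ≤ UW := by
    rw [hUW, le_div_iff₀ hWp]
    linarith
  have hu0 : 0 < u := by rw [hu]; exact div_pos (by linarith) hp0
  have hDρ : 0 < D / ρ := by positivity
  have hUWu : UW ≤ 62 / 10 * (D / ρ) := by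
    have h1 : 20 * |c| * D * uq = 20 * (B * uq) := by rw [hB]; ring
    rw [h1] at b8
    have h3 := (abs_le.mp b8).2
    have h2 : B * uq ≤ 1 / 100000 * uq := by
      apply mul_le_mul_of_nonneg_right _ (by linarith)
      linarith
    linarith
  have hdiff : |u - UW| ≤ 4 * η * UW := r7_diff nL nR P0 WL WR p η u UW hp0 hη hUW1 hUWp hup hpp e1 e2
  have hηUW : η * UW ≤ 1 / 100000 * UW := mul_le_mul_of_nonneg_right hη1 (by linarith)
  have huu : u ≤ 7 * (D / ρ) := by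
    have h1 := (abs_le.mp hdiff).2
    linarith
  have hηDρ : 0 ≤ η * (D / ρ) := by positivity
  have huη : u * η ≤ 7 * (η * (D / ρ)) := by
    have := mul_le_mul_of_nonneg_right huu hη
    linarith
  have hUWη : UW * η ≤ 7 * (η * (D / ρ)) := by
    have := mul_le_mul_of_nonneg_right hUWu hη
    linarith
  have hηform : 1000 * η * D / ρ = 1000 * (η * (D / ρ)) := by ring
  rw [hηform]
  have hηAL : η * AL ≤ 1 / 100000 * 2 := mul_le_mul hη1 (by linarith) hAL0.le (by norm_num)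
  have hηAR : η * AR ≤ 1 / 100000 * 2 := mul_le_mul hη1 (by linarith) hAR0.le (by norm_num)
  have eL2 : AL * (1 + 10 * η) = AL + 10 * (η * AL) := by ring
  have eR2 : AR * (1 + 10 * η) = AR + 10 * (η * AR) := by ring
  refine ⟨g * qR / τR, by linarith, ?_, ?_, ?_, ?_, ?_, ?_⟩
  · calc u ≤ 7 * (D / ρ) := huu
      _ = 7 * D / ρ := by ring
  · calc p / (d * kL) ≤ AL * (1 + 10 * η) := haL
      _ ≤ 101 / 100 := by linarith
  · calc p / (d * kR) ≤ AR * (1 + 10 * η) := haR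
      _ ≤ 14 / 10 := by linarith
  · calc p / (d * kL) + p / (d * kR) ≤ AL * (1 + 10 * η) + AR * (1 + 10 * η) := add_le_add haL haR
      _ ≤ 2002 / 1000 := by linarith
  · exact r7_low u UW AL (p / (d * kL)) uq αL B η (η * (D / ρ)) hu0 hη (by linarith) hηDρ haL hAL0 (by linarith)
      hdiff huη hUWη (by linarith) hαL1 b9
  · exact r7_upp u UW AR (p / (d * kR)) uq αR B η (η * (D / ρ)) (g * qR / τR) hu0 hη (by linarith) hηDρ haR hAR0
      (by linarith) hdiff huη hUWη a5 b10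

end

end Pool.Agent.Helper36.CV
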