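import Mathlib
import Pool.Agent.Helper36.CV.StmtsR

set_option autoImplicit false

namespace Pool.Agent.Helper36.CV

open Complex Filter Topology MeasureTheory Set

noncomputable section

/-- arithmetic input -/
theorem r7_B (hN0 : ST_N0) {Hm Hp : ℝ} {C : Set ℝ} (cd : CD Hm Hp C) (V0 VL VR : Gap cd)
    (hp : 0 < VR.N - VL.N)
    (hz : (VR.N - VL.N) * (VR.N - VL.N) + (VR.N - VL.N) * |VL.mu| + (VR.N - VL.N) * |VR.mu| < 2) :
    ∃ (σ : ℝ) (k : ℤ), (σ = 1 ∨ σ = -1) ∧ (VR.N - VL.N) * ((VR.N - VL.N) - (VR.mu - VL.mu)) = σ ∧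
      σ * (VL.N + VR.N - 2 * V0.N) * ((VL.N + VR.N - 2 * V0.N) - VR.mu - VL.mu + 2 * V0.mu) = 2 * k + 1 := by
  obtain ⟨hmul, hnorm, hzero, -, hdiv, hgap, -, -, -⟩ := hN0
  obtain ⟨P, hP⟩ : ∃ P : ℤ × ℤ, P = (VR.n - VL.n, VR.m - VL.m) := ⟨_, rfl⟩
  obtain ⟨gL1, gL2⟩ := hgap cd VL
  obtain ⟨gR1, gR2⟩ := hgap cd VR
  obtain ⟨g01, g02⟩ := hgap cd V0
  have hzv : zv P = VR.N - VL.N := by
    rw [gL1, gR1, hP]
    simp only [zv]
    push_cast
    ring
  have hzc : zc P = (VR.N - VR.mu) - (VL.N - VL.mu) := by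
    rw [gL2, gR2, hP]
    simp only [zc]
    push_cast
    ring
  have hzn := hnorm P
  rw [hzv, hzc] at hzn
  have hlt : |((zn P : ℤ) : ℝ)| < 2 := by
    rw [← hzn]
    have h1 : (VR.N - VL.N) * (VR.N - VR.mu - (VL.N - VL.mu)) =
        (VR.N - VL.N) * (VR.N - VL.N) + (VR.N - VL.N) * VL.mu - (VR.N - VL.N) * VR.mu := by ring
    rw [h1]
    have h2 : |(VR.N - VL.N) * VL.mu| = (VR.N - VL.N) * |VL.mu| := by rw [abs_mul, abs_of_pos hp]
    have h3 : |(VR.N - VL.N) * VR.mu| = (VR.N - VL.N) * |VR.mu| := by rw [abs_mul, abs_of_pos hp]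
    have h4 : 0 < (VR.N - VL.N) * (VR.N - VL.N) := mul_pos hp hp
    have h5 := abs_le.mp (le_of_eq h2)
    have h6 := abs_le.mp (le_of_eq h3)
    rw [abs_lt]
    constructor <;> linarith [h5.1, h5.2, h6.1, h6.2]
  have hne : zn P ≠ 0 := by
    intro h0
    have h1 := hzero P h0
    rw [h1] at hzv
    simp only [zv] at hzv
    simp at hzv
    linarith
  have hlt2 : |zn P| < 2 := by
    have : ((|zn P| : ℤ) : ℝ) < 2 := by
      push_cast
      exact hlt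
    exact_mod_cast this
  have hone : |zn P| = 1 := by
    have : 0 < |zn P| := abs_pos.mpr hne
    omega
  obtain ⟨y, hy⟩ := hdiv P hone (VL.n - V0.n, VL.m - V0.m)
  obtain ⟨hm1, hm2, -⟩ := hmul P y
  rw [hy, hzv] at hm1
  rw [hy, hzc] at hm2
  have e1 : zv (VL.n - V0.n, VL.m - V0.m) = VL.N - V0.N := by
    rw [gL1, g01]
    simp only [zv]
    push_cast
    ring
  have e2 : zc (VL.n - V0.n, VL.m - V0.m) = (VL.N - VL.mu) - (V0.N - V0.mu) := by
    rw [gL2, g02]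
    simp only [zc]
    push_cast
    ring
  rw [e1] at hm1
  rw [e2] at hm2
  obtain ⟨X, hX⟩ : ∃ X : ℤ × ℤ, X = (1 + 2 * y.1, 2 * y.2) := ⟨_, rfl⟩
  have hXv : zv X = 1 + 2 * zv y := by
    rw [hX]
    simp only [zv]
    push_cast
    ring
  have hXc : zc X = 1 + 2 * zc y := by
    rw [hX]
    simp only [zc]
    push_cast
    ring
  have hXn := hnorm X
  rw [hXv, hXc] at hXn
  obtain ⟨k, hk⟩ : ∃ k : ℤ, zn X = 2 * k + 1 := by
    refine ⟨2 * y.1 + 2 * y.1 ^ 2 - (1 + 2 * y.1) * y.2 - 2 * y.2 ^ 2, ?_⟩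
    rw [hX]
    simp only [zn]
    ring
  have hk' : ((zn X : ℤ) : ℝ) = 2 * k + 1 := by
    rw [hk]
    push_cast
    ring
  refine ⟨((zn P : ℤ) : ℝ), k, ?_, ?_, ?_⟩
  · rcases (abs_eq (by norm_num : (0 : ℤ) ≤ 1)).mp hone with h | h
    · left
      rw [h]
      norm_num
    · right
      rw [h]
      norm_num
  · rw [← hzn]
    ring
  · have hsq : ((zn P : ℤ) : ℝ) * ((zn P : ℤ) : ℝ) = 1 := by
      rcases (abs_eq (by norm_num : (0 : ℤ) ≤ 1)).mp hone with h | h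
      · rw [h]
        norm_num
      · rw [h]
        norm_num
    have h1 : VL.N + VR.N - 2 * V0.N = (VR.N - VL.N) * (1 + 2 * zv y) := by
      have : (VR.N - VL.N) * (1 + 2 * zv y) = (VR.N - VL.N) + 2 * ((VR.N - VL.N) * zv y) := by ring
      rw [this, ← hm1]
      ring
    have h2 : (VL.N + VR.N - 2 * V0.N) - VR.mu - VL.mu + 2 * V0.mu =
        (VR.N - VR.mu - (VL.N - VL.mu)) * (1 + 2 * zc y) := by
      have : (VR.N - VR.mu - (VL.N - VL.mu)) * (1 + 2 * zc y) =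
        (VR.N - VR.mu - (VL.N - VL.mu)) + 2 * ((VR.N - VR.mu - (VL.N - VL.mu)) * zc y) := by ring
      rw [this, ← hm2]
      ring
    rw [h2, h1, ← hk', ← hXn]
    have h3 : ((zn P : ℤ) : ℝ) * ((VR.N - VL.N) * (1 + 2 * zv y)) *
        ((VR.N - VR.mu - (VL.N - VL.mu)) * (1 + 2 * zc y)) =
        ((zn P : ℤ) : ℝ) * ((VR.N - VL.N) * (VR.N - VR.mu - (VL.N - VL.mu))) * ((1 + 2 * zv y) * (1 + 2 * zc y)) := by
      ring
    rw [h3, hzn, hsq, one_mul]

/-- sizes -/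
theorem r7_sz (p mL mR σ aL aR lL lR δ : ℝ) (hσ : σ = 1 ∨ σ = -1) (hp : 0 < p) (hp2 : p * p ≤ 1 / 1000000)
    (hδ : δ ≤ 1 / 1000000) (haL : 0 < aL) (haR : 0 < aR) (haL1 : aL ≤ 101 / 100) (haR1 : aR ≤ 14 / 10)
    (has : aL + aR ≤ 2002 / 1000) (hσp : p * (p - (mR - mL)) = σ)
    (hL : p * |mL| ≤ 1 / 2 * lL * aL) (hR : p * |mR| ≤ 1 / 2 * lR * aR) (hlL : lL ≤ 1 + δ) (hlR : lR ≤ 1 + δ) :
    97 / 100 < lL ∧ 97 / 100 < lR := by
  have hdist : 1 - p * p ≤ p * |mL| + p * |mR| := by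
    have h1 : |p * mR - p * mL| ≤ p * |mL| + p * |mR| := by
      calc |p * mR - p * mL| ≤ |p * mR| + |p * mL| := abs_sub _ _
        _ = p * |mL| + p * |mR| := by rw [abs_mul, abs_mul, abs_of_pos hp]; ring
    have h2 : p * mR - p * mL = p * p - σ := by rw [← hσp]; ring
    rw [h2] at h1
    have h3 := abs_le.mp h1
    rcases hσ with h | h
    · rw [h] at h3
      linarith [h3.1]
    · rw [h] at h3
      linarith [h3.2, mul_pos hp hp]
  have h1 : lL * aL ≤ (1 + δ) * aL := mul_le_mul_of_nonneg_right hlL haL.le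
  have h2 : lR * aR ≤ (1 + δ) * aR := mul_le_mul_of_nonneg_right hlR haR.le
  have h3 : δ * aL ≤ 1 / 1000000 * aL := mul_le_mul_of_nonneg_right hδ haL.le
  have h4 : δ * aR ≤ 1 / 1000000 * aR := mul_le_mul_of_nonneg_right hδ haR.le
  have e1 : (1 + δ) * aL = aL + δ * aL := by ring
  have e2 : (1 + δ) * aR = aR + δ * aR := by ring
  have e3 : 1 / 2 * lL * aL = 1 / 2 * (lL * aL) := by ring
  have e4 : 1 / 2 * lR * aR = 1 / 2 * (lR * aR) := by ring
  constructor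
  · by_contra hcon
    push Not at hcon
    have h5 : lL * aL ≤ 97 / 100 * aL := mul_le_mul_of_nonneg_right hcon haL.le
    linarith
  · by_contra hcon
    push Not at hcon
    have h5 : lR * aR ≤ 97 / 100 * aR := mul_le_mul_of_nonneg_right hcon haR.le
    linarith

/-- final inequality -/
theorem r7_C (p S u mL mR m0 σ aL aR lL lR δ E1 E2 E3 G : ℝ) (k : ℤ) (hσ : σ = 1 ∨ σ = -1) (hp : 0 < p)
    (hS : S = u * p) (hu : 1 ≤ u) (hσp : p * (p - (mR - mL)) = σ)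
    (hQ : σ * S * (S - mR - mL + 2 * m0) = 2 * k + 1)
    (haL : 0 < aL) (haR : 0 < aR) (haL1 : aL ≤ 101 / 100) (haR1 : aR ≤ 14 / 10)
    (hL : p * |mL| ≤ 1 / 2 * lL * aL) (hR : p * |mR| ≤ 1 / 2 * lR * aR) (hlL : lL ≤ 1 + δ) (hlR : lR ≤ 1 + δ)
    (hδ : 0 ≤ δ) (hE3 : u * δ ≤ E3) (hlow : -E1 ≤ u * (1 - aL)) (hupp : u * (aR - 1) ≤ 1 - G + E1)
    (hG : 0 ≤ G) (hm0 : S * |m0| ≤ E2) (hSS : S * S ≤ E2) (hE : E1 + 4 * E2 + 2 * E3 ≤ 1 / 2) :
    G ≤ E1 + 4 * E2 + 2 * E3 := by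
  have hu0 : 0 < u := by linarith
  have hS0 : 0 < S := by rw [hS]; positivity
  have hσ2 : σ * σ = 1 := by rcases hσ with h | h <;> rw [h] <;> norm_num
  have hσa : |σ| = 1 := by rcases hσ with h | h <;> rw [h] <;> norm_num
  obtain ⟨wL, hwL⟩ : ∃ w, w = -σ * p * mL := ⟨_, rfl⟩
  obtain ⟨wR, hwR⟩ : ∃ w, w = -σ * p * mR := ⟨_, rfl⟩
  have hwLa : |wL| = p * |mL| := by
    rw [hwL, abs_mul, abs_mul, abs_neg, hσa, abs_of_pos hp]
    ring
  have hwRa : |wR| = p * |mR| := by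
    rw [hwR, abs_mul, abs_mul, abs_neg, hσa, abs_of_pos hp]
    ring
  have hdiff : wR - wL = 1 - σ * (p * p) := by
    have h1 : p * (mR - mL) = p * p - σ := by rw [← hσp]; ring
    have h2 : wR - wL = -σ * (p * (mR - mL)) := by rw [hwL, hwR]; ring
    rw [h2, h1]
    have h3 : -σ * (p * p - σ) = σ * σ - σ * (p * p) := by ring
    rw [h3, hσ2]
  have hσpp : |σ * (p * p)| ≤ p * p := by
    rw [abs_mul, hσa, one_mul, abs_of_pos (mul_pos hp hp)]
  have hQ2 : (2 * (k : ℝ) + 1) = σ * (S * S) + u * (wL + wR) + 2 * (σ * (S * m0)) := by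
    rw [← hQ, hwL, hwR]
    have : σ * S * (S - mR - mL + 2 * m0) = σ * (S * S) - σ * S * (mL + mR) + 2 * (σ * (S * m0)) := by ring
    rw [this, hS]
    ring
  have h1 : |σ * (S * S)| ≤ E2 := by
    rw [abs_mul, hσa, one_mul, abs_of_pos (mul_pos hS0 hS0)]
    exact hSS
  have h2 : |σ * (S * m0)| ≤ E2 := by
    rw [abs_mul, hσa, one_mul, abs_mul, abs_of_pos hS0]
    exact hm0
  have hupp2 : u * (p * p) ≤ E2 := by
    have h3 : u * (p * p) = S * p := by rw [hS]; ring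
    have h4 : p ≤ S := by
      rw [hS]
      calc p = 1 * p := by ring
        _ ≤ u * p := mul_le_mul_of_nonneg_right hu hp.le
    rw [h3]
    calc S * p ≤ S * S := mul_le_mul_of_nonneg_left h4 hS0.le
      _ ≤ E2 := hSS
  have hE30 : 0 ≤ E3 := le_trans (mul_nonneg hu0.le hδ) hE3
  have h5 : lL * aL ≤ aL + δ * aL := by
    have := mul_le_mul_of_nonneg_right hlL haL.le
    linarith
  have h6 : lR * aR ≤ aR + δ * aR := by
    have := mul_le_mul_of_nonneg_right hlR haR.le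
    linarith
  -- lower
  have hlo : -(E1 + 4 * E2 + 2 * E3) ≤ 2 * (k : ℝ) + 1 := by
    have h7 : 1 - p * p - (aL + δ * aL) ≤ wL + wR := by
      have h8 : wL + wR = 1 - σ * (p * p) + 2 * wL := by linarith
      have h9 := (abs_le.mp (le_of_eq hwLa)).1
      have h10 := (abs_le.mp hσpp).2
      linarith
    have h11 : u * (1 - p * p - (aL + δ * aL)) ≤ u * (wL + wR) := mul_le_mul_of_nonneg_left h7 hu0.le
    have h12 : u * (1 - p * p - (aL + δ * aL)) = u * (1 - aL) - u * (p * p) - (u * δ) * aL := by ring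
    have h13 : (u * δ) * aL ≤ E3 * (101 / 100) := mul_le_mul hE3 haL1 haL.le hE30
    rw [hQ2]
    linarith [(abs_le.mp h1).1, (abs_le.mp h2).1]
  have hhi : 2 * (k : ℝ) + 1 ≤ 1 - G + (E1 + 4 * E2 + 2 * E3) := by
    have h7 : wL + wR ≤ (aR + δ * aR) - 1 + p * p := by
      have h8 : wL + wR = 2 * wR - (1 - σ * (p * p)) := by linarith
      have h9 := (abs_le.mp (le_of_eq hwRa)).2
      have h10 := (abs_le.mp hσpp).2
      linarith
    have h11 : u * (wL + wR) ≤ u * ((aR + δ * aR) - 1 + p * p) := mul_le_mul_of_nonneg_left h7 hu0.le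
    have h12 : u * ((aR + δ * aR) - 1 + p * p) = u * (aR - 1) + u * (p * p) + (u * δ) * aR := by ring
    have h13 : (u * δ) * aR ≤ E3 * (14 / 10) := mul_le_mul hE3 haR1 haR.le hE30
    rw [hQ2]
    linarith [(abs_le.mp h1).2, (abs_le.mp h2).2]
  have hk1 : (-1 : ℝ) < k := by linarith
  have hk2 : (k : ℝ) < 1 := by linarith
  have hk3 : (-1 : ℤ) < k := by exact_mod_cast hk1
  have hk4 : k < 1 := by exact_mod_cast hk2
  have hk5 : k = 0 := by omega
  rw [hk5] at hhi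
  norm_num at hhi
  linarith

end

end Pool.Agent.Helper36.CV
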