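import Mathlib
import Pool.Agent.Helper36.CV.StmtsR
import Pool.Agent.Helper59.CV.R7a
import Pool.Agent.Helper59.CV.R7b

set_option autoImplicit false

namespace Pool.Agent.Helper36.CV

open Complex Filter Topology MeasureTheory Set

noncomputable section

/-- bound for p |mu| in terms of a -/
theorem r7_w (p m k s d ε : ℝ) (hp : 0 < p) (hk : 0 < k) (hs : 0 < s) (hd : 0 < d)
    (hm : |m| * k * s ≤ ε / 2 * (1 + 98 * ε)) :
    p * |m| ≤ 1 / 2 * (ε * (1 + 98 * ε) * d / s) * (p / (d * k)) := by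
  have h1 : 1 / 2 * (ε * (1 + 98 * ε) * d / s) * (p / (d * k)) = p * ((ε / 2 * (1 + 98 * ε)) / (k * s)) := by
    field_simp
  rw [h1]
  apply mul_le_mul_of_nonneg_left _ hp.le
  rw [le_div_iff₀ (by positivity)]
  calc |m| * (k * s) = |m| * k * s := by ring
    _ ≤ _ := hm

/-- lower bound for the size -/
theorem r7_s (ε ρ z s : ℝ) (hε : 0 < ε) (hε1 : ε ≤ 1 / 1000000000) (hρ : 0 < ρ) (hz : ε * ρ * (1 - 3 * ε) ≤ z)
    (hs : (1 - 26 / 10 * ε) * z ≤ s) : ε * ρ * (1 - 6 * ε) ≤ s := by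
  have hερ : 0 < ε * ρ := mul_pos hε hρ
  have h1 : (1 - 26 / 10 * ε) * (ε * ρ * (1 - 3 * ε)) ≤ (1 - 26 / 10 * ε) * z :=
    mul_le_mul_of_nonneg_left hz (by linarith)
  have h2 : (1 - 26 / 10 * ε) * (ε * ρ * (1 - 3 * ε)) = ε * ρ * (1 - 56 / 10 * ε) + ε * ρ * (78 / 10 * ε ^ 2) := by ring
  have h3 : 0 ≤ ε * ρ * (78 / 10 * ε ^ 2) := by positivity
  have h4 : ε * ρ * (1 - 6 * ε) ≤ ε * ρ * (1 - 56 / 10 * ε) := by
    apply mul_le_mul_of_nonneg_left _ hερ.le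
    linarith
  linarith

/-- bound for lambda -/
theorem r7_lam (ε ρ s d b δ : ℝ) (hε : 0 < ε) (hε1 : ε ≤ 1 / 1000000000) (hρ : 0 < ρ)
    (hs : ε * ρ * (1 - 6 * ε) ≤ s) (hd : d ≤ ρ * (1 + b)) (hδ : 0 ≤ δ)
    (hb : (1 + 98 * ε) * (1 + b) ≤ (1 + δ) * (1 - 6 * ε)) :
    ε * (1 + 98 * ε) * d / s ≤ 1 + δ := by
  have hερ : 0 < ε * ρ := mul_pos hε hρ
  have hs0 : 0 < s := lt_of_lt_of_le (mul_pos hερ (by linarith)) hs
  rw [div_le_iff₀ hs0]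
  calc ε * (1 + 98 * ε) * d ≤ ε * (1 + 98 * ε) * (ρ * (1 + b)) := by
        apply mul_le_mul_of_nonneg_left hd
        positivity
    _ = ε * ρ * ((1 + 98 * ε) * (1 + b)) := by ring
    _ ≤ ε * ρ * ((1 + δ) * (1 - 6 * ε)) := mul_le_mul_of_nonneg_left hb hερ.le
    _ = (1 + δ) * (ε * ρ * (1 - 6 * ε)) := by ring
    _ ≤ (1 + δ) * s := mul_le_mul_of_nonneg_left hs (by linarith)

/-- the size is small if lambda is large -/
theorem r7_lt (ε ρ s d b z : ℝ) (hε : 0 < ε) (hε1 : ε ≤ 1 / 1000000000) (hρ : 0 < ρ) (hs0 : 0 < s)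
    (hd : d ≤ ρ * (1 + b)) (hb0 : 0 ≤ b) (hb : b ≤ 1 / 1000000) (hz : ε * ρ * (1 - 3 * ε) ≤ z)
    (hl : 97 / 100 < ε * (1 + 98 * ε) * d / s) : s < 21 / 20 * z := by
  have hερ : 0 < ε * ρ := mul_pos hε hρ
  rw [lt_div_iff₀ hs0] at hl
  have h1 : ε * (1 + 98 * ε) * d ≤ ε * ρ * (1001 / 1000) := by
    calc ε * (1 + 98 * ε) * d ≤ ε * (1 + 98 * ε) * (ρ * (1 + b)) := by
          apply mul_le_mul_of_nonneg_left hd
          positivity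
      _ = ε * ρ * ((1 + 98 * ε) * (1 + b)) := by ring
      _ ≤ ε * ρ * (1001 / 1000) := by
        apply mul_le_mul_of_nonneg_left _ hερ.le
        have : ε * b ≤ 1 / 1000000000 * (1 / 1000000) := mul_le_mul hε1 hb hb0 (by norm_num)
        nlinarith only [this, hε1, hb]
  have h2 : ε * ρ * (999 / 1000) ≤ z := by
    have : ε * ρ * (999 / 1000) ≤ ε * ρ * (1 - 3 * ε) := by
      apply mul_le_mul_of_nonneg_left _ hερ.le
      linarith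
    linarith
  linarith

theorem r7_fin (hL1 : ST_L1) (hL2 : ST_L2)
    (e ε ρ x D zL zR cL cR sL sR kL kR nL nR mL mR m0 c0 h P0 c : ℝ)
    (he : 0 < e) (he1 : e ≤ 1 / 1000000) (hε : ε = e ^ 100) (hρ : 0 < ρ) (hh : 0 < h)
    (hD : 7 / 5 * ρ ≤ D) (hD2 : D * e ^ 90 ≤ ρ) (hDx : D = x - c0 - h)
    (hzL : ε * ρ * (1 - 3 * ε) ≤ zL) (hzR : ε * ρ * (1 - 3 * ε) ≤ zR) (hzL2 : zL ≤ 2 * ε * ρ) (hzR2 : zR ≤ 2 * ε * ρ)
    (hcL : |cL - (x - ρ / 2 + zL / 2)| ≤ e ^ 33 * ρ) (hcR : |cR - (x + ρ / 2 - zR / 2)| ≤ e ^ 33 * ρ)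
    (hsL : (1 - 26 / 10 * ε) * zL ≤ sL) (hsR : (1 - 26 / 10 * ε) * zR ≤ sR)
    (hpL : sL < 21 / 20 * zL → |cL - (x - ρ / 2 + zL / 2)| ≤ (sL - zL) / 2 + zL / 10)
    (hpR : sR < 21 / 20 * zR → |cR - (x + ρ / 2 - zR / 2)| ≤ (sR - zR) / 2 + zR / 10)
    (hkL : 0 < kL) (hkR : 0 < kR) (hN1 : 0 < nL) (hN2 : nL < nR) (hN3 : nR - nL ≤ 12 * e ^ 300)
    (hmL : |mL| * kL * sL ≤ ε / 2 * (1 + 98 * ε)) (hmR : |mR| * kR * sR ≤ ε / 2 * (1 + 98 * ε))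
    (hc : |c| * D ≤ e ^ 15)
    (l1 : |nL - P0 * (Real.sqrt ((cL - c0) ^ 2 - h ^ 2) * (1 + c * (cL - x)))| ≤ e ^ 20 * ρ / D * (nR - nL))
    (l2 : |nR - P0 * (Real.sqrt ((cR - c0) ^ 2 - h ^ 2) * (1 + c * (cR - x)))| ≤ e ^ 20 * ρ / D * (nR - nL))
    (l3 : P0 * ((cL - c0) / Real.sqrt ((cL - c0) ^ 2 - h ^ 2) * (1 + c * (cL - x)) + c * Real.sqrt ((cL - c0) ^ 2 - h ^ 2))
      - 3 * (e ^ 20 * ρ / D) * (nR - nL) / ρ ≤ kL)
    (l4 : P0 * ((cR - c0) / Real.sqrt ((cR - c0) ^ 2 - h ^ 2) * (1 + c * (cR - x)) + c * Real.sqrt ((cR - c0) ^ 2 - h ^ 2))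
      - 3 * (e ^ 20 * ρ / D) * (nR - nL) / ρ ≤ kR)
    (hm0 : (nL + nR) * |m0| ≤ 48 * e ^ 40) (hm0' : 1000 ≤ |m0|)
    (hB : (nR - nL) * (nR - nL) + (nR - nL) * |mL| + (nR - nL) * |mR| < 2 → ∃ (σ : ℝ) (k : ℤ), (σ = 1 ∨ σ = -1) ∧
      (nR - nL) * ((nR - nL) - (mR - mL)) = σ ∧
      σ * (nL + nR) * ((nL + nR) - mR - mL + 2 * m0) = 2 * k + 1) :
    D ≤ e ^ 5 * (2 * h) := by
  have hDpos : 0 < D := by linarith
  have hε0 : 0 < ε := by rw [hε]; positivity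
  have he1' : e ≤ 1 := by linarith
  -- powers
  have pw : ∀ m n : ℕ, m ≤ n → e ^ n ≤ e ^ m := fun m n hmn => pow_le_pow_of_le_one he.le he1' hmn
  have hε1 : ε ≤ 1 / 1000000000 := by
    rw [hε]
    calc e ^ 100 ≤ e ^ 2 := pw 2 100 (by norm_num)
      _ ≤ (1 / 1000000) ^ 2 := pow_le_pow_left₀ he.le he1 2
      _ ≤ 1 / 1000000000 := by norm_num
  have he33 : e ^ 33 ≤ 1 / 1000000000 := by
    calc e ^ 33 ≤ e ^ 2 := pw 2 33 (by norm_num)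
      _ ≤ (1 / 1000000) ^ 2 := pow_le_pow_left₀ he.le he1 2
      _ ≤ 1 / 1000000000 := by norm_num
  have he33p : 0 < e ^ 33 := by positivity
  have he20p : 0 < e ^ 20 := by positivity
  have he20 : e ^ 20 ≤ 1 / 1000000 := by
    calc e ^ 20 ≤ e ^ 1 := pw 1 20 (by norm_num)
      _ = e := by ring
      _ ≤ _ := he1
  have he15 : e ^ 15 ≤ 1 / 1000000 := by
    calc e ^ 15 ≤ e ^ 1 := pw 1 15 (by norm_num)
      _ = e := by ring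
      _ ≤ _ := he1
  have hερ : 0 < ε * ρ := mul_pos hε0 hρ
  have hzL0 : 0 < zL := lt_of_lt_of_le (mul_pos hερ (by linarith)) hzL
  have hzR0 : 0 < zR := lt_of_lt_of_le (mul_pos hερ (by linarith)) hzR
  have hερ1 : ε * ρ ≤ 1 / 1000000000 * ρ := mul_le_mul_of_nonneg_right hε1 hρ.le
  have he33ρ : e ^ 33 * ρ ≤ 1 / 1000000000 * ρ := mul_le_mul_of_nonneg_right he33 hρ.le
  obtain ⟨cL1, cL2⟩ := abs_le.mp hcL
  obtain ⟨cR1, cR2⟩ := abs_le.mp hcR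
  obtain ⟨η, hη⟩ : ∃ η, η = e ^ 20 * ρ / D := ⟨_, rfl⟩
  rw [← hη] at l1 l2 l3 l4
  have hη0 : 0 ≤ η := by rw [hη]; positivity
  have hηD : η * D = e ^ 20 * ρ := by rw [hη]; field_simp
  have hη1 : η ≤ e ^ 20 := by
    rw [hη, div_le_iff₀ hDpos]
    apply mul_le_mul_of_nonneg_left _ he20p.le
    linarith
  obtain ⟨G, hG1, hG2, hG3, hG4, hG5, hG6, hG7⟩ := r7_A hL1 hL2 h (cL - c0) (cR - c0) c (cL - x) (cR - x) ρ D P0 nL nR kL kR η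
    hh.le hρ hD (by linarith) (by linarith) (by rw [abs_le]; constructor <;> linarith)
    (by rw [abs_le]; constructor <;> linarith) (by ring) (by linarith) (by linarith) (by linarith) hη0 (by linarith)
    hN1 hN2 hkL hkR l1 l2 l3 l4
  clear l1 l2 l3 l4 hL1 hL2
  have hdd : cR - c0 - (cL - c0) = cR - cL := by ring
  rw [hdd] at hG3 hG4 hG5 hG6 hG7
  obtain ⟨d, hd⟩ : ∃ d, d = cR - cL := ⟨_, rfl⟩
  obtain ⟨p, hp⟩ : ∃ p, p = nR - nL := ⟨_, rfl⟩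
  rw [← hd, ← hp] at hG3 hG4 hG5 hG6 hG7
  rw [← hp] at hG2 hB hN3
  have hd0 : 0 < d := by rw [hd]; linarith
  have hp0 : 0 < p := by rw [hp]; linarith
  have hs1 := r7_s ε ρ zL sL hε0 hε1 hρ hzL hsL
  have hs2 := r7_s ε ρ zR sR hε0 hε1 hρ hzR hsR
  have hsL0 : 0 < sL := lt_of_lt_of_le (mul_pos hερ (by linarith)) hs1
  have hsR0 : 0 < sR := lt_of_lt_of_le (mul_pos hερ (by linarith)) hs2
  have hwL := r7_w p mL kL sL d ε hp0 hkL hsL0 hd0 hmL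
  have hwR := r7_w p mR kR sR d ε hp0 hkR hsR0 hd0 hmR
  obtain ⟨aL, haL⟩ : ∃ a, a = p / (d * kL) := ⟨_, rfl⟩
  obtain ⟨aR, haR⟩ : ∃ a, a = p / (d * kR) := ⟨_, rfl⟩
  rw [← haL] at hG3 hG5 hG6 hwL
  rw [← haR] at hG4 hG5 hG7 hwR
  have haL0 : 0 < aL := by rw [haL]; positivity
  have haR0 : 0 < aR := by rw [haR]; positivity
  obtain ⟨lL, hlL⟩ : ∃ a, a = ε * (1 + 98 * ε) * d / sL := ⟨_, rfl⟩
  obtain ⟨lR, hlR⟩ : ∃ a, a = ε * (1 + 98 * ε) * d / sR := ⟨_, rfl⟩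
  rw [← hlL] at hwL
  rw [← hlR] at hwR
  have hd1 : d ≤ ρ * (1 + 2 * e ^ 33) := by
    have : ρ * (1 + 2 * e ^ 33) = ρ + 2 * (e ^ 33 * ρ) := by ring
    rw [this, hd]
    linarith
  have hb1 : (1 + 98 * ε) * (1 + 2 * e ^ 33) ≤ (1 + 1 / 1000000) * (1 - 6 * ε) := by
    have : ε * e ^ 33 ≤ 1 / 1000000000 * (1 / 1000000000) := mul_le_mul hε1 he33 he33p.le (by norm_num)
    linarith
  have hlL1 : lL ≤ 1 + 1 / 1000000 := by
    rw [hlL]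
    exact r7_lam ε ρ sL d (2 * e ^ 33) (1 / 1000000) hε0 hε1 hρ hs1 hd1 (by norm_num) hb1
  have hlR1 : lR ≤ 1 + 1 / 1000000 := by
    rw [hlR]
    exact r7_lam ε ρ sR d (2 * e ^ 33) (1 / 1000000) hε0 hε1 hρ hs2 hd1 (by norm_num) hb1
  have hpsmall : p ≤ 1 / 1000 := by
    have : e ^ 300 ≤ e ^ 1 := pw 1 300 (by norm_num)
    rw [pow_one] at this
    linarith
  have hpp : p * p ≤ 1 / 1000000 := by
    calc p * p ≤ 1 / 1000 * (1 / 1000) := mul_le_mul hpsmall hpsmall hp0.le (by norm_num)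
      _ = 1 / 1000000 := by norm_num
  have hz : p * p + p * |mL| + p * |mR| < 2 := by
    have h1 : lL * aL ≤ (1 + 1 / 1000000) * aL := mul_le_mul_of_nonneg_right hlL1 haL0.le
    have h2 : lR * aR ≤ (1 + 1 / 1000000) * aR := mul_le_mul_of_nonneg_right hlR1 haR0.le
    linarith
  obtain ⟨σ, k, hσ, hσp, hQ⟩ := hB hz
  obtain ⟨hq1, hq2⟩ := r7_sz p mL mR σ aL aR lL lR (1 / 1000000) hσ hp0 hpp le_rfl haL0 haR0 hG3 hG4 hG5 hσp hwL hwR hlL1 hlR1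
  have hb2 : 2 * e ^ 33 ≤ 1 / 1000000 := by linarith
  have ht1 : sL < 21 / 20 * zL := by
    rw [hlL] at hq1
    exact r7_lt ε ρ sL d (2 * e ^ 33) zL hε0 hε1 hρ hsL0 hd1 (by positivity) hb2 hzL hq1
  have ht2 : sR < 21 / 20 * zR := by
    rw [hlR] at hq2
    exact r7_lt ε ρ sR d (2 * e ^ 33) zR hε0 hε1 hρ hsR0 hd1 (by positivity) hb2 hzR hq2
  have hd3 : d ≤ ρ * (1 + 0) := by
    have h1 := (abs_le.mp (hpL ht1)).1
    have h2 := (abs_le.mp (hpR ht2)).2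
    rw [hd]
    linarith
  have hb3 : (1 + 98 * ε) * (1 + 0) ≤ (1 + 110 * ε) * (1 - 6 * ε) := by
    have h1 : ε * ε ≤ 1 / 1000000000 * ε := mul_le_mul_of_nonneg_right hε1 hε0.le
    linarith
  have hlL2 : lL ≤ 1 + 110 * ε := by
    rw [hlL]
    exact r7_lam ε ρ sL d 0 (110 * ε) hε0 hε1 hρ hs1 hd3 (by positivity) hb3
  have hlR2 : lR ≤ 1 + 110 * ε := by
    rw [hlR]
    exact r7_lam ε ρ sR d 0 (110 * ε) hε0 hε1 hρ hs2 hd3 (by positivity) hb3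
  obtain ⟨S, hS⟩ : ∃ S, S = nL + nR := ⟨_, rfl⟩
  rw [← hS] at hQ hG2 hG6 hG7 hm0
  have hS0 : 0 < S := by rw [hS]; linarith
  have hSp : p ≤ S := by rw [hS, hp]; linarith
  obtain ⟨u, hu⟩ : ∃ u, u = S / p := ⟨_, rfl⟩
  rw [← hu] at hG2 hG6 hG7
  have hSu : S = u * p := by rw [hu]; field_simp
  have hu1 : 1 ≤ u := by rw [hu, le_div_iff₀ hp0]; linarith
  have he40 : 48 * e ^ 40 ≤ 1 := by
    have : e ^ 40 ≤ e ^ 1 := pw 1 40 (by norm_num)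
    rw [pow_one] at this
    linarith
  have hSm : S ≤ 48 * e ^ 40 := by
    have : S * 1 ≤ S * |m0| := mul_le_mul_of_nonneg_left (by linarith) hS0.le
    linarith
  have hSS : S * S ≤ 48 * e ^ 40 := by
    have : S * S ≤ S * 1 := mul_le_mul_of_nonneg_left (by linarith) hS0.le
    linarith
  have hE1 : 100 * |c| * D + 1000 * η * D / ρ ≤ 100 * e ^ 15 + 1000 * e ^ 20 := by
    have h1 : 1000 * η * D / ρ = 1000 * (η * D) / ρ := by ring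
    have h2 : 1000 * (e ^ 20 * ρ) / ρ = 1000 * e ^ 20 := by field_simp
    rw [h1, hηD, h2]
    linarith
  have huδ : u * (110 * ε) ≤ 770 * e ^ 10 := by
    have h1 : u * ρ ≤ 7 * D := by
      rw [le_div_iff₀ hρ] at hG2
      exact hG2
    have h2 : u * ρ * (110 * e ^ 100) ≤ 7 * D * (110 * e ^ 100) := mul_le_mul_of_nonneg_right h1 (by positivity)
    have h3 : 7 * D * (110 * e ^ 100) = 770 * e ^ 10 * (D * e ^ 90) := by ring
    have h4 : 770 * e ^ 10 * (D * e ^ 90) ≤ 770 * e ^ 10 * ρ := mul_le_mul_of_nonneg_left hD2 (by positivity)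
    have h5 : u * (110 * ε) * ρ ≤ 770 * e ^ 10 * ρ := by
      calc u * (110 * ε) * ρ = u * ρ * (110 * e ^ 100) := by rw [hε]; ring
        _ ≤ _ := by linarith
    exact le_of_mul_le_mul_right h5 hρ
  have hG0 : 0 ≤ G := le_trans (sq_nonneg _) hG1
  have he8 : 0 < e ^ 8 := by positivity
  have p15 : e ^ 15 ≤ 1 / 1000000 * e ^ 8 := by
    calc e ^ 15 ≤ e ^ 9 := pw 9 15 (by norm_num)
      _ = e * e ^ 8 := by ring
      _ ≤ 1 / 1000000 * e ^ 8 := mul_le_mul_of_nonneg_right he1 he8.le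
  have p20 : e ^ 20 ≤ 1 / 1000000 * e ^ 8 := by
    calc e ^ 20 ≤ e ^ 9 := pw 9 20 (by norm_num)
      _ = e * e ^ 8 := by ring
      _ ≤ 1 / 1000000 * e ^ 8 := mul_le_mul_of_nonneg_right he1 he8.le
  have p40 : e ^ 40 ≤ 1 / 1000000 * e ^ 8 := by
    calc e ^ 40 ≤ e ^ 9 := pw 9 40 (by norm_num)
      _ = e * e ^ 8 := by ring
      _ ≤ 1 / 1000000 * e ^ 8 := mul_le_mul_of_nonneg_right he1 he8.le
  have p10 : e ^ 10 ≤ 1 / 1000000 * e ^ 8 := by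
    calc e ^ 10 ≤ e ^ 9 := pw 9 10 (by norm_num)
      _ = e * e ^ 8 := by ring
      _ ≤ 1 / 1000000 * e ^ 8 := mul_le_mul_of_nonneg_right he1 he8.le
  have he8u : e ^ 8 ≤ 1 / 1000000 := by
    calc e ^ 8 ≤ e ^ 1 := pw 1 8 (by norm_num)
      _ = e := by ring
      _ ≤ _ := he1
  have hfin := r7_C p S u mL mR m0 σ aL aR lL lR (110 * ε) (100 * e ^ 15 + 1000 * e ^ 20) (48 * e ^ 40) (770 * e ^ 10) G k
    hσ hp0 hSu hu1 hσp hQ haL0 haR0 hG3 hG4 hwL hwR hlL2 hlR2 (by positivity) huδ (by linarith) (by linarith) hG0 hm0 hSS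
    (by linarith)
  have hG8 : G ≤ e ^ 8 := by linarith
  -- conclusion
  obtain ⟨τ, hτ⟩ : ∃ τ, τ = cL - c0 := ⟨_, rfl⟩
  rw [← hτ] at hG1
  have hτh : D - 51 / 100 * ρ ≤ τ - h := by rw [hτ]; linarith
  have hτ0 : 0 < τ := by linarith
  have hsq : Real.sqrt (τ ^ 2 - h ^ 2) ^ 2 = τ ^ 2 - h ^ 2 := by
    rw [Real.sq_sqrt]
    have : h ^ 2 ≤ τ ^ 2 := pow_le_pow_left₀ hh.le (by linarith) 2
    linarith
  rw [div_pow, hsq, div_le_iff₀ (by positivity)] at hG1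
  have h1 : (τ - h) * τ ≤ (e ^ 8 * τ) * τ := by
    have h2 : G * τ ^ 2 ≤ e ^ 8 * τ ^ 2 := mul_le_mul_of_nonneg_right hG8 (by positivity)
    have h3 : (τ - h) * τ ≤ (τ - h) * (τ + h) := mul_le_mul_of_nonneg_left (by linarith) (by linarith)
    have e1 : (τ - h) * (τ + h) = τ ^ 2 - h ^ 2 := by ring
    have e2 : e ^ 8 * τ * τ = e ^ 8 * τ ^ 2 := by ring
    linarith
  have h2 : τ - h ≤ e ^ 8 * τ := le_of_mul_le_mul_right h1 hτ0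
  have h3 : e ^ 8 * τ ≤ 1 / 1000000 * τ := mul_le_mul_of_nonneg_right he8u hτ0.le
  have h4 : τ ≤ 2 * h := by linarith
  have h5 : e ^ 8 * τ ≤ e ^ 8 * (2 * h) := mul_le_mul_of_nonneg_left h4 he8.le
  have h6 : 2 * e ^ 8 ≤ e ^ 5 := by
    have : e ^ 8 ≤ e ^ 6 := pw 6 8 (by norm_num)
    have h7 : e ^ 6 = e * e ^ 5 := by ring
    have h8 : e * e ^ 5 ≤ 1 / 1000000 * e ^ 5 := mul_le_mul_of_nonneg_right he1 (by positivity)
    have h9 : 0 < e ^ 5 := by positivity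
    linarith
  have h7 : 2 * e ^ 8 * (2 * h) ≤ e ^ 5 * (2 * h) := mul_le_mul_of_nonneg_right h6 (by linarith)
  linarith

end

end Pool.Agent.Helper36.CV
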