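import Mathlib
import Pool.Agent.Helper36.CV.StmtsR
import Pool.Agent.Helper59.CV.R7c

set_option autoImplicit false

namespace Pool.Agent.Helper36.CV

open Complex Filter Topology MeasureTheory Set

noncomputable section

theorem r7_pow (ε : ℝ) (hε : 0 < ε) (n : ℕ) (a : ℝ) (ha : a * 100 = n) : ε ^ a = (ε ^ (1 / 100 : ℝ)) ^ n := by
  rw [← Real.rpow_natCast, ← Real.rpow_mul hε.le]
  have : (1 / 100 : ℝ) * n = a := by rw [← ha]; ring
  rw [this]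

theorem r7_powneg (ε : ℝ) (hε : 0 < ε) (n : ℕ) (a : ℝ) (ha : a * 100 = n) :
    ε ^ (-a) = ((ε ^ (1 / 100 : ℝ)) ^ n)⁻¹ := by
  rw [Real.rpow_neg hε.le, r7_pow ε hε n a ha]

theorem r7_root (ε δ : ℝ) (hε : 0 < ε) (hδ : 0 < δ) (h : ε ≤ δ ^ 100) : ε ^ (1 / 100 : ℝ) ≤ δ := by
  have h1 : ε ^ (1 / 100 : ℝ) ≤ (δ ^ 100) ^ (1 / 100 : ℝ) := Real.rpow_le_rpow hε.le h (by norm_num)
  have h2 : (δ ^ 100) ^ (1 / 100 : ℝ) = δ := by
    rw [← Real.rpow_natCast, ← Real.rpow_mul hδ.le]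
    norm_num
  rw [h2] at h1
  exact h1

/-- the window -/
theorem r7_R (e ε ρ D s : ℝ) (P : ℝ → Prop) (he : 0 < e) (he1 : e ≤ 1 / 1000000) (hε : ε = e ^ 100) (hρ : 0 < ρ)
    (hD : 7 / 5 * ρ ≤ D) (hs : 0 < s) (h1 : s ≤ 2 * D → P (3 / 100 * (e ^ 40)⁻¹ * Real.sqrt (D / ρ) * D))
    (h2 : P (s / (4 * ε))) : ∃ R : ℝ, 0 < R ∧ P R ∧ D ≤ e ^ 39 * R ∧ D + s ≤ e ^ 30 * R := by
  have hDpos : 0 < D := by linarith
  have he1' : e ≤ 1 := by linarith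
  have pw : ∀ m n : ℕ, m ≤ n → e ^ n ≤ e ^ m := fun m n hmn => pow_le_pow_of_le_one he.le he1' hmn
  by_cases hc : s ≤ 2 * D
  · have hsq : 1 ≤ Real.sqrt (D / ρ) := by
      rw [Real.one_le_sqrt, le_div_iff₀ hρ]
      linarith
    refine ⟨_, by positivity, h1 hc, ?_, ?_⟩
    · have h3 : e ^ 39 * (3 / 100 * (e ^ 40)⁻¹ * Real.sqrt (D / ρ) * D) = (3 / 100 * e⁻¹) * Real.sqrt (D / ρ) * D := by
        field_simp
      rw [h3]
      have h4 : 1 ≤ 3 / 100 * e⁻¹ := by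
        rw [← div_eq_mul_inv, le_div_iff₀ he]
        linarith
      have h5 : 1 ≤ 3 / 100 * e⁻¹ * Real.sqrt (D / ρ) := by
        calc (1 : ℝ) = 1 * 1 := by ring
          _ ≤ _ := mul_le_mul h4 hsq (by norm_num) (by positivity)
      calc D = 1 * D := by ring
        _ ≤ _ := mul_le_mul_of_nonneg_right h5 hDpos.le
    · have h3 : e ^ 30 * (3 / 100 * (e ^ 40)⁻¹ * Real.sqrt (D / ρ) * D) =
        (3 / 100 * (e ^ 10)⁻¹) * Real.sqrt (D / ρ) * D := by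
        field_simp
      rw [h3]
      have h4 : 3 ≤ 3 / 100 * (e ^ 10)⁻¹ := by
        rw [← div_eq_mul_inv, le_div_iff₀ (by positivity)]
        have := pw 1 10 (by norm_num)
        rw [pow_one] at this
        linarith
      have h5 : 3 ≤ 3 / 100 * (e ^ 10)⁻¹ * Real.sqrt (D / ρ) := by
        calc (3 : ℝ) = 3 * 1 := by ring
          _ ≤ _ := mul_le_mul h4 hsq (by norm_num) (by positivity)
      calc D + s ≤ 3 * D := by linarith
        _ ≤ _ := mul_le_mul_of_nonneg_right h5 hDpos.le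
  · push Not at hc
    refine ⟨s / (4 * ε), by rw [hε]; positivity, h2, ?_, ?_⟩
    · have h3 : e ^ 39 * (s / (4 * ε)) = s * (1 / (4 * e ^ 61)) := by
        rw [hε]
        field_simp
      rw [h3]
      have h4 : 1 ≤ 1 / (4 * e ^ 61) := by
        rw [le_div_iff₀ (by positivity)]
        have := pw 1 61 (by norm_num)
        rw [pow_one] at this
        linarith
      have h5 : s * 1 ≤ s * (1 / (4 * e ^ 61)) := mul_le_mul_of_nonneg_left h4 hs.le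
      linarith
    · have h3 : e ^ 30 * (s / (4 * ε)) = s * (1 / (4 * e ^ 70)) := by
        rw [hε]
        field_simp
      rw [h3]
      have h4 : 3 / 2 ≤ 1 / (4 * e ^ 70) := by
        rw [le_div_iff₀ (by positivity)]
        have := pw 1 70 (by norm_num)
        rw [pow_one] at this
        linarith
      have h5 : s * (3 / 2) ≤ s * (1 / (4 * e ^ 70)) := mul_le_mul_of_nonneg_left h4 hs.le
      linarith

/-- bound for eB -/
theorem r7_eB (e ρ D R : ℝ) (he : 0 < e) (he1 : e ≤ 1 / 1000000) (hρ : 0 < ρ) (hDpos : 0 < D) (hR : 0 < R)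
    (hD2 : D * e ^ 90 ≤ ρ) (hR1 : D ≤ e ^ 39 * R) :
    e ^ 117 + ρ * D / R ^ 2 * (R / D) ^ (1 / 10 : ℝ) ≤ (e ^ 27 + e ^ 39) * (ρ / D) := by
  have he1' : e ≤ 1 := by linarith
  have h1 : e ^ 117 ≤ e ^ 27 * (ρ / D) := by
    have h2 : e ^ 90 ≤ ρ / D := by
      rw [le_div_iff₀ hDpos]
      linarith
    calc e ^ 117 = e ^ 27 * e ^ 90 := by ring
      _ ≤ _ := mul_le_mul_of_nonneg_left h2 (by positivity)
  have hDR : D ≤ R := by
    have : e ^ 39 ≤ 1 := pow_le_one₀ he.le he1'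
    calc D ≤ e ^ 39 * R := hR1
      _ ≤ 1 * R := mul_le_mul_of_nonneg_right this hR.le
      _ = R := one_mul R
  have h3 : (R / D) ^ (1 / 10 : ℝ) ≤ R / D := by
    have h4 : 1 ≤ R / D := by
      rw [le_div_iff₀ hDpos]
      linarith
    calc (R / D) ^ (1 / 10 : ℝ) ≤ (R / D) ^ (1 : ℝ) := Real.rpow_le_rpow_of_exponent_le h4 (by norm_num)
      _ = R / D := Real.rpow_one _
  have h5 : ρ * D / R ^ 2 * (R / D) ^ (1 / 10 : ℝ) ≤ e ^ 39 * (ρ / D) := by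
    calc ρ * D / R ^ 2 * (R / D) ^ (1 / 10 : ℝ) ≤ ρ * D / R ^ 2 * (R / D) :=
          mul_le_mul_of_nonneg_left h3 (by positivity)
      _ = ρ / R := by field_simp
      _ ≤ e ^ 39 * (ρ / D) := by
        rw [div_le_iff₀ hR]
        have h6 : e ^ 39 * (ρ / D) * R = ρ * (e ^ 39 * R) / D := by ring
        rw [h6, le_div_iff₀ hDpos]
        exact mul_le_mul_of_nonneg_left hR1 hρ.le
  have h7 : (e ^ 27 + e ^ 39) * (ρ / D) = e ^ 27 * (ρ / D) + e ^ 39 * (ρ / D) := by ring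
  linarith

/-- bound for c -/
theorem r7_c (e ρ D R K P0 P1 : ℝ) (he : 0 < e) (he1 : e ≤ 1 / 1000000) (hρ : 0 < ρ) (hDpos : 0 < D) (hR : 0 < R)
    (hP0 : 0 < P0) (hK : 0 < K) (hKe : K * e ≤ 1)
    (hD2 : D * e ^ 90 ≤ ρ) (hR1 : D ≤ e ^ 39 * R)
    (h : |P1| * ρ ≤ K * (e ^ 115 + ρ / R * (R / D) ^ (1 / 10 : ℝ)) * P0) : |P1 / P0| * D ≤ e ^ 15 := by
  have he1' : e ≤ 1 := by linarith
  have pw : ∀ m n : ℕ, m ≤ n → e ^ n ≤ e ^ m := fun m n hmn => pow_le_pow_of_le_one he.le he1' hmn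
  have hDR : D ≤ R := by
    have : e ^ 39 ≤ 1 := pow_le_one₀ he.le he1'
    calc D ≤ e ^ 39 * R := hR1
      _ ≤ 1 * R := mul_le_mul_of_nonneg_right this hR.le
      _ = R := one_mul R
  have h3 : (R / D) ^ (1 / 10 : ℝ) ≤ Real.sqrt (R / D) := by
    have h4 : 1 ≤ R / D := by
      rw [le_div_iff₀ hDpos]
      linarith
    rw [Real.sqrt_eq_rpow]
    exact Real.rpow_le_rpow_of_exponent_le h4 (by norm_num)
  have h4 : D / R * Real.sqrt (R / D) ≤ e ^ 19 := by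
    have h5 : D / R * Real.sqrt (R / D) = Real.sqrt (D / R) := by
      have h6 : D / R = Real.sqrt (D / R) * Real.sqrt (D / R) := (Real.mul_self_sqrt (by positivity)).symm
      have h7 : Real.sqrt (D / R) * Real.sqrt (R / D) = 1 := by
        rw [← Real.sqrt_mul (by positivity)]
        have : D / R * (R / D) = 1 := by field_simp
        rw [this, Real.sqrt_one]
      calc D / R * Real.sqrt (R / D) = Real.sqrt (D / R) * (Real.sqrt (D / R) * Real.sqrt (R / D)) := by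
            rw [← mul_assoc, ← h6]
        _ = Real.sqrt (D / R) := by rw [h7, mul_one]
    rw [h5]
    apply Real.sqrt_le_iff.mpr
    refine ⟨by positivity, ?_⟩
    rw [div_le_iff₀ hR]
    calc D ≤ e ^ 39 * R := hR1
      _ ≤ (e ^ 19) ^ 2 * R := by
        apply mul_le_mul_of_nonneg_right _ hR.le
        calc e ^ 39 ≤ e ^ 38 := pw 38 39 (by norm_num)
          _ = (e ^ 19) ^ 2 := by ring
  have h5 : |P1 / P0| * ρ ≤ K * (e ^ 115 + ρ / R * (R / D) ^ (1 / 10 : ℝ)) := by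
    rw [abs_div, abs_of_pos hP0, div_mul_eq_mul_div, div_le_iff₀ hP0]
    exact h
  have h6 : |P1 / P0| * D * ρ ≤ e ^ 15 * ρ := by
    have h7 : |P1 / P0| * ρ * D ≤ K * (e ^ 115 + ρ / R * (R / D) ^ (1 / 10 : ℝ)) * D :=
      mul_le_mul_of_nonneg_right h5 hDpos.le
    have h8 : K * (e ^ 115 + ρ / R * (R / D) ^ (1 / 10 : ℝ)) * D =
        K * (e ^ 25 * (D * e ^ 90) + ρ * (D / R * (R / D) ^ (1 / 10 : ℝ))) := by ring
    have h9 : D / R * (R / D) ^ (1 / 10 : ℝ) ≤ e ^ 19 :=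
      le_trans (mul_le_mul_of_nonneg_left h3 (by positivity)) h4
    have h10 : e ^ 25 * (D * e ^ 90) ≤ e ^ 25 * ρ := mul_le_mul_of_nonneg_left hD2 (by positivity)
    have h11 : ρ * (D / R * (R / D) ^ (1 / 10 : ℝ)) ≤ ρ * e ^ 19 := mul_le_mul_of_nonneg_left h9 hρ.le
    have h12 : K * (e ^ 25 * (D * e ^ 90) + ρ * (D / R * (R / D) ^ (1 / 10 : ℝ))) ≤ K * (e ^ 25 * ρ + ρ * e ^ 19) :=
      mul_le_mul_of_nonneg_left (by linarith) hK.le
    have h13 : K * (e ^ 25 * ρ + ρ * e ^ 19) = (K * e) * ((e ^ 24 + e ^ 18) * ρ) := by ring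
    have h14 : (K * e) * ((e ^ 24 + e ^ 18) * ρ) ≤ 1 * ((e ^ 24 + e ^ 18) * ρ) :=
      mul_le_mul_of_nonneg_right hKe (by positivity)
    have h15 : (e ^ 24 + e ^ 18) * ρ ≤ e ^ 15 * ρ := by
      apply mul_le_mul_of_nonneg_right _ hρ.le
      have h16 := pw 16 24 (by norm_num)
      have h17 := pw 16 18 (by norm_num)
      have h18 : e ^ 16 = e * e ^ 15 := by ring
      have h19 : e * e ^ 15 ≤ 1 / 1000000 * e ^ 15 := mul_le_mul_of_nonneg_right he1 (by positivity)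
      have h20 : 0 < e ^ 15 := by positivity
      linarith
    have h16 : |P1 / P0| * D * ρ = |P1 / P0| * ρ * D := by ring
    linarith
  exact le_of_mul_le_mul_right h6 hρ

/-- bound for the law error -/
theorem r7_law (e ε ρ D K K4 J p nn s A EB : ℝ) (he : 0 < e) (he1 : e ≤ 1 / 1000000) (hρ : 0 < ρ) (hD : 7 / 5 * ρ ≤ D)
    (hK : 0 < K) (hKe : K * e ≤ 1) (hK4 : 0 < K4) (hK4e : K4 * e ≤ 1) (hD2 : D * e ^ 90 ≤ ρ) (hJ : 0 < J) (hJp : J ≤ 4 * p)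
    (hs : 0 < s) (hεs : ε * ρ ≤ 2 * s)
    (hEB : EB ≤ (e ^ 27 + e ^ 39) * (ρ / D))
    (hnn : nn ≤ K4 * e ^ 120 * (1 + ε * ρ / s) * J)
    (hA : A ≤ (D + 3 / 5 * ρ) / (D - ρ) / Real.pi * nn + K * EB * J) :
    A ≤ e ^ 20 * ρ / D * p ∧ K * EB * J ≤ e ^ 20 * ρ / D * p := by
  have hDpos : 0 < D := by linarith
  have he1' : e ≤ 1 := by linarith
  have hp : 0 < p := by linarith
  have pw : ∀ m n : ℕ, m ≤ n → e ^ n ≤ e ^ m := fun m n hmn => pow_le_pow_of_le_one he.le he1' hmn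
  have hρD : 0 < ρ / D := by positivity
  have hform : e ^ 20 * ρ / D * p = e ^ 20 * (ρ / D * p) := by ring
  rw [hform]
  have hX : 0 < ρ / D * p := by positivity
  have p22 : e ^ 21 ≤ 1 / 1000000 * e ^ 20 := by
    calc e ^ 21 = e * e ^ 20 := by ring
      _ ≤ _ := mul_le_mul_of_nonneg_right he1 (by positivity)
  have he20 : 0 < e ^ 20 := by positivity
  have hB : K * EB * J ≤ 1 / 100 * (e ^ 20 * (ρ / D * p)) := by
    have h1 : K * EB * J ≤ K * ((e ^ 27 + e ^ 39) * (ρ / D)) * (4 * p) := by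
      apply mul_le_mul _ hJp hJ.le (by positivity)
      exact mul_le_mul_of_nonneg_left hEB hK.le
    have h2 : K * ((e ^ 27 + e ^ 39) * (ρ / D)) * (4 * p) = (K * e) * (4 * (e ^ 26 + e ^ 38) * (ρ / D * p)) := by ring
    have h3 : (K * e) * (4 * (e ^ 26 + e ^ 38) * (ρ / D * p)) ≤ 1 * (4 * (e ^ 26 + e ^ 38) * (ρ / D * p)) :=
      mul_le_mul_of_nonneg_right hKe (by positivity)
    have h4 : 4 * (e ^ 26 + e ^ 38) ≤ 1 / 100 * e ^ 20 := by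
      have h5 := pw 21 26 (by norm_num)
      have h6 := pw 21 38 (by norm_num)
      linarith
    have h7 : 4 * (e ^ 26 + e ^ 38) * (ρ / D * p) ≤ 1 / 100 * e ^ 20 * (ρ / D * p) :=
      mul_le_mul_of_nonneg_right h4 hX.le
    linarith
  have hpi := Real.pi_gt_three
  have hcoef : (D + 3 / 5 * ρ) / (D - ρ) / Real.pi ≤ 2 := by
    rw [div_div, div_le_iff₀ (by apply mul_pos; linarith; linarith)]
    have h1 : (D - ρ) * 3 ≤ (D - ρ) * Real.pi := mul_le_mul_of_nonneg_left hpi.le (by linarith)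
    linarith
  have hcoef0 : 0 ≤ (D + 3 / 5 * ρ) / (D - ρ) / Real.pi := by
    apply div_nonneg _ Real.pi_pos.le
    apply div_nonneg <;> linarith
  have hnn2 : nn ≤ 1 / 100 * (e ^ 20 * (ρ / D * p)) := by
    have h1 : ε * ρ / s ≤ 2 := by
      rw [div_le_iff₀ hs]
      linarith
    have h2 : K4 * e ^ 120 * (1 + ε * ρ / s) * J ≤ K4 * e ^ 120 * 3 * (4 * p) := by
      apply mul_le_mul _ hJp hJ.le (by positivity)
      apply mul_le_mul_of_nonneg_left _ (by positivity)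
      linarith
    have h3 : K4 * e ^ 120 * 3 * (4 * p) = (K4 * e) * (12 * e ^ 29 * (e ^ 90 * p)) := by ring
    have h4 : (K4 * e) * (12 * e ^ 29 * (e ^ 90 * p)) ≤ 1 * (12 * e ^ 29 * (e ^ 90 * p)) :=
      mul_le_mul_of_nonneg_right hK4e (by positivity)
    have h5 : e ^ 90 * p ≤ ρ / D * p := by
      apply mul_le_mul_of_nonneg_right _ hp.le
      rw [le_div_iff₀ hDpos]
      linarith
    have h6 : 12 * e ^ 29 * (e ^ 90 * p) ≤ 12 * e ^ 29 * (ρ / D * p) :=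
      mul_le_mul_of_nonneg_left h5 (by positivity)
    have h7 : 12 * e ^ 29 ≤ 1 / 100 * e ^ 20 := by
      have h5 := pw 21 29 (by norm_num)
      linarith
    have h8 : 12 * e ^ 29 * (ρ / D * p) ≤ 1 / 100 * e ^ 20 * (ρ / D * p) :=
      mul_le_mul_of_nonneg_right h7 hX.le
    linarith
  have hfin : 0 < e ^ 20 * (ρ / D * p) := by positivity
  constructor
  · have h1 : (D + 3 / 5 * ρ) / (D - ρ) / Real.pi * nn ≤ 2 * (1 / 100 * (e ^ 20 * (ρ / D * p))) := by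
      calc (D + 3 / 5 * ρ) / (D - ρ) / Real.pi * nn ≤ (D + 3 / 5 * ρ) / (D - ρ) / Real.pi * (1 / 100 * (e ^ 20 * (ρ / D * p))) :=
            mul_le_mul_of_nonneg_left hnn2 hcoef0
        _ ≤ _ := mul_le_mul_of_nonneg_right hcoef (by positivity)
    linarith
  · linarith

/-- kids: sizes of the end children -/
theorem r7_kids (ε cK t ρ z : ℝ) (hε : 0 < ε) (hcε : cK * ε ≤ 1) (hε1 : ε ≤ 1 / 1000) (hρ : 0 < ρ)
    (ht : |t| ≤ 1) (h : |z - ε * (1 + 2 * ε * t) * ρ| ≤ cK * ε ^ 3 * ρ) :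
    ε * ρ * (1 - 3 * ε) ≤ z ∧ z ≤ 2 * ε * ρ ∧ 0 < z := by
  have h1 : cK * ε ^ 3 * ρ ≤ ε ^ 2 * ρ := by
    calc cK * ε ^ 3 * ρ = (cK * ε) * (ε ^ 2 * ρ) := by ring
      _ ≤ 1 * (ε ^ 2 * ρ) := mul_le_mul_of_nonneg_right hcε (by positivity)
      _ = ε ^ 2 * ρ := by ring
  obtain ⟨h2, h3⟩ := abs_le.mp h
  obtain ⟨h4, h5⟩ := abs_le.mp ht
  have h6 : 0 < ε ^ 2 * ρ := by positivity
  have h7 : ε ^ 2 * ρ * t ≤ ε ^ 2 * ρ * 1 := mul_le_mul_of_nonneg_left h5 h6.le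
  have h8 : ε ^ 2 * ρ * (-1) ≤ ε ^ 2 * ρ * t := mul_le_mul_of_nonneg_left h4 h6.le
  have h9 : ε * (1 + 2 * ε * t) * ρ = ε * ρ + 2 * (ε ^ 2 * ρ * t) := by ring
  have h10 : ε * ρ * (1 - 3 * ε) = ε * ρ - 3 * (ε ^ 2 * ρ) := by ring
  have h11 : ε ^ 2 * ρ ≤ 1 / 1000 * (ε * ρ) := by
    calc ε ^ 2 * ρ = ε * (ε * ρ) := by ring
      _ ≤ 1 / 1000 * (ε * ρ) := mul_le_mul_of_nonneg_right hε1 (by positivity)
  have h12 : 0 < ε * ρ := by positivity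
  refine ⟨by linarith, by linarith, by linarith⟩

theorem st_R7 (hP1 : ST_P1) (hP2 : ST_P2) (hQ4 : ST_Q4) (hQ10 : ST_Q10) (hR0 : ST_R0) (hR2 : ST_R2) (hR3 : ST_R3)
    (hR4 : ST_R4) (hR6 : ST_R6) (hL1 : ST_L1) (hL2 : ST_L2) (hN0 : ST_N0) : ST_R7 := by
  intro cK hcK
  obtain ⟨KQ, εQ, hKQ, hεQ, hQ⟩ := hQ10
  obtain ⟨ε0', hε0', h0⟩ := hR0
  obtain ⟨ε2, hε2, h2⟩ := hR2 cK hcK
  obtain ⟨ε3, hε3, h3⟩ := hR3 cK hcK
  obtain ⟨K4, ε4, hK4, hε4, h4⟩ := hR4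
  obtain ⟨ε6, hε6, h6⟩ := hR6 cK hcK
  obtain ⟨δ, hδ⟩ : ∃ δ : ℝ, δ = 1 / (1000000 + cK + KQ + K4) := ⟨_, rfl⟩
  have hden : 0 < 1000000 + cK + KQ + K4 := by linarith
  have hδ0 : 0 < δ := by rw [hδ]; positivity
  have hδM : δ * (1000000 + cK + KQ + K4) = 1 := by
    rw [hδ]
    field_simp
  refine ⟨min (min (min εQ ε0') (min ε2 ε3)) (min (min ε4 ε6) (δ ^ 100)), by positivity, ?_⟩
  intro ε Hm Hp C cd hPar hε τ l r l0 r0 l1 r1 l2 r2 VL VR hpair D V0 hNL hD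
  have hεε : ε ≤ εQ ∧ ε ≤ ε0' ∧ ε ≤ ε2 ∧ ε ≤ ε3 ∧ ε ≤ ε4 ∧ ε ≤ ε6 ∧ ε ≤ δ ^ 100 := by
    simp only [le_min_iff] at hε
    tauto
  obtain ⟨hεQ', hε0'', hε2', hε3', hε4', hε6', hεδ⟩ := hεε
  have hε0 : 0 < ε := hPar.1
  have hHm : 0 < Hm := hPar.2.1
  obtain ⟨e, he⟩ : ∃ e, e = ε ^ (1 / 100 : ℝ) := ⟨_, rfl⟩
  have he0 : 0 < e := by rw [he]; positivity
  have heδ : e ≤ δ := by rw [he]; exact r7_root ε δ hε0 hδ0 hεδ
  have heM : e * (1000000 + cK + KQ + K4) ≤ 1 := by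
    calc e * (1000000 + cK + KQ + K4) ≤ δ * (1000000 + cK + KQ + K4) := mul_le_mul_of_nonneg_right heδ hden.le
      _ = 1 := hδM
  have hecK : 0 < e * cK := by positivity
  have heKQ : 0 < e * KQ := by positivity
  have heK4 : 0 < e * K4 := by positivity
  have heM' : e * 1000000 + e * cK + e * KQ + e * K4 ≤ 1 := by linarith
  have he1 : e ≤ 1 / 1000000 := by linarith
  have hKQe : KQ * e ≤ 1 := by linarith
  have hK4e : K4 * e ≤ 1 := by linarith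
  have hcKe : cK * e ≤ 1 := by linarith
  have he1' : e ≤ 1 := by linarith
  have pw : ∀ m n : ℕ, m ≤ n → e ^ n ≤ e ^ m := fun m n hmn => pow_le_pow_of_le_one he0.le he1' hmn
  -- powers
  have hpow : ∀ (n : ℕ) (a : ℝ), a * 100 = n → ε ^ a = e ^ n := by
    intro n a ha
    rw [he]
    exact r7_pow ε hε0 n a ha
  have hpown : ∀ (n : ℕ) (a : ℝ), a * 100 = n → ε ^ (-a) = (e ^ n)⁻¹ := by
    intro n a ha
    rw [he]
    exact r7_powneg ε hε0 n a ha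
  have hε100 : ε = e ^ 100 := by
    rw [← hpow 100 1 (by norm_num), Real.rpow_one]
  have hεe : ε ≤ e := by
    rw [hε100]
    have := pw 1 100 (by norm_num)
    rw [pow_one] at this
    exact this
  have hε1 : ε ≤ 1 / 1000000 := by linarith
  have w59 : ε ^ (59 / 100 : ℝ) = e ^ 59 := hpow 59 _ (by norm_num)
  have w120 : ε ^ (6 / 5 : ℝ) = e ^ 120 := hpow 120 _ (by norm_num)
  have w30 : ε ^ (3 / 10 : ℝ) = e ^ 30 := hpow 30 _ (by norm_num)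
  have w115 : ε ^ (115 / 100 : ℝ) = e ^ 115 := hpow 115 _ (by norm_num)
  have w117 : ε ^ (117 / 100 : ℝ) = e ^ 117 := hpow 117 _ (by norm_num)
  have w40 : ε ^ (2 / 5 : ℝ) = e ^ 40 := hpow 40 _ (by norm_num)
  have w5 : ε ^ (1 / 20 : ℝ) = e ^ 5 := hpow 5 _ (by norm_num)
  have w90 : ε ^ (-(9 / 10) : ℝ) = (e ^ 90)⁻¹ := hpown 90 _ (by norm_num)
  have w105 : ε ^ (-(21 / 20) : ℝ) = (e ^ 105)⁻¹ := hpown 105 _ (by norm_num)
  have w40n : ε ^ (-(2 / 5) : ℝ) = (e ^ 40)⁻¹ := hpown 40 _ (by norm_num)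
  have w33 : ε ^ (1 / 3 : ℝ) ≤ e ^ 33 := by
    rw [← hpow 33 (33 / 100) (by norm_num)]
    exact Real.rpow_le_rpow_of_exponent_ge hε0 (by linarith) (by norm_num)
  have he90 : 0 < e ^ 90 := by positivity
  have he105 : 0 < e ^ 105 := by positivity
  -- basic facts
  have hkids := hpair.kids
  have hlr : l < r := hkids.lt
  obtain ⟨ρ, hρd⟩ : ∃ ρ, ρ = r - l := ⟨_, rfl⟩
  obtain ⟨x, hxd⟩ : ∃ x, x = (l + r) / 2 := ⟨_, rfl⟩
  have hρ : 0 < ρ := by rw [hρd]; linarith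
  have hD2 : D * e ^ 90 ≤ ρ := by
    rw [w90, ← hρd] at hD
    calc D * e ^ 90 ≤ (e ^ 90)⁻¹ * ρ * e ^ 90 := mul_le_mul_of_nonneg_right hD he90.le
      _ = ρ := by field_simp
  have hD105 : D ≤ ε ^ (-(21 / 20) : ℝ) * ρ := by
    rw [w105]
    have h7 : D * e ^ 105 ≤ ρ := by
      have hh : D * e ^ 105 = D * e ^ 90 * e ^ 15 := by ring
      have h8 : D * e ^ 90 * e ^ 15 ≤ ρ * e ^ 15 := mul_le_mul_of_nonneg_right hD2 (by positivity)
      have h9 : ρ * e ^ 15 ≤ ρ * 1 := mul_le_mul_of_nonneg_left (pow_le_one₀ he0.le he1') hρ.le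
      linarith
    calc D = (e ^ 105)⁻¹ * (D * e ^ 105) := by field_simp
      _ ≤ (e ^ 105)⁻¹ * ρ := mul_le_mul_of_nonneg_left h7 (by positivity)
  obtain ⟨r61, r62, r63, r64, r65, r66⟩ := h6 ε Hm Hp C cd hPar hε6' τ l r l0 r0 l1 r1 l2 r2 VL VR hpair D V0 hNL
    (by rw [← hρd]; exact hD105)
  obtain ⟨-, r32, r33, r34, r35, r36⟩ := h3 ε Hm Hp C cd hPar hε3' τ l r l0 r0 l1 r1 l2 r2 VL VR hpair
  obtain ⟨r21, r22, r23, -, -, r26⟩ := h2 ε Hm Hp C cd hPar hε2' τ l r l0 r0 l1 r1 l2 r2 VL VR hpair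
  have hNLl := hNL.left
  have hNLd := hNL.dD
  rw [← hxd, ← hρd] at r22 r23 r26 r32 r63
  rw [← hxd] at r66
  rw [← hρd] at r33 r34 r35 r36 r61 r64
  rw [← hxd] at hNLl hNLd
  rw [w59] at r33 r34
  -- children
  have ht1 : |τ| ≤ 1 := by
    rcases hkids.tt with h | h | h <;> rw [h] <;> norm_num
  have hcε : cK * ε ≤ 1 := by
    calc cK * ε ≤ cK * e := mul_le_mul_of_nonneg_left hεe (by linarith)
      _ ≤ 1 := hcKe
  obtain ⟨zL, hzLd⟩ : ∃ z, z = r0 - l0 := ⟨_, rfl⟩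
  obtain ⟨zR, hzRd⟩ : ∃ z, z = r2 - l2 := ⟨_, rfl⟩
  obtain ⟨kL1, kL2, kL3⟩ := r7_kids ε cK τ ρ zL hε0 hcε (by linarith) hρ ht1 (by
    rw [hzLd, hρd]
    exact hkids.n0)
  obtain ⟨kR1, kR2, kR3⟩ := r7_kids ε cK (-τ) ρ zR hε0 hcε (by linarith) hρ (by rw [abs_neg]; exact ht1) (by
    have hh : ε * (1 + 2 * ε * (-τ)) * ρ = ε * (1 - 2 * ε * τ) * ρ := by ring
    rw [hh, hzRd, hρd]
    exact hkids.n2)
  have hxL : (l0 + r0) / 2 = x - ρ / 2 + zL / 2 := by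
    rw [hxd, hρd, hzLd, hkids.e0]
    ring
  have hxR : (l2 + r2) / 2 = x + ρ / 2 - zR / 2 := by
    rw [hxd, hρd, hzRd, hkids.e2]
    ring
  rw [hxL] at r35
  rw [hxR] at r36
  have hcL : |VL.c - (x - ρ / 2 + zL / 2)| ≤ e ^ 33 * ρ := le_trans r35 (mul_le_mul_of_nonneg_right w33 hρ.le)
  have hcR : |VR.c - (x + ρ / 2 - zR / 2)| ≤ e ^ 33 * ρ := le_trans r36 (mul_le_mul_of_nonneg_right w33 hρ.le)
  -- witnesses
  have hVLs : VL.s = VL.b - VL.a := rfl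
  have hVRs : VR.s = VR.b - VR.a := rfl
  have hVLc : VL.c = (VL.a + VL.b) / 2 := rfl
  have hVRc : VR.c = (VR.a + VR.b) / 2 := rfl
  have hV0s : V0.s = V0.b - V0.a := rfl
  have hV0c : V0.c = (V0.a + V0.b) / 2 := rfl
  obtain ⟨-, hW1⟩ := h0 ε VL.a VL.b l0 r0 hε0 hε0'' VL.lt (by linarith)
  obtain ⟨wL1, -, -, -, wL5, -⟩ := hW1 hpair.wL
  obtain ⟨-, hW2⟩ := h0 ε VR.a VR.b l2 r2 hε0 hε0'' VR.lt (by linarith)
  obtain ⟨wR1, -, -, -, wR5, -⟩ := hW2 hpair.wR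
  rw [← hVLs, ← hzLd] at wL1 wL5
  rw [← hVRs, ← hzRd] at wR1 wR5
  rw [← hVLc, hxL] at wL5
  rw [← hVRc, hxR] at wR5
  -- sizes
  have hερ : 0 < ε * ρ := mul_pos hε0 hρ
  have hεbig : ε ≤ 1 / 1000000000 := by
    rw [hε100]
    calc e ^ 100 ≤ e ^ 2 := pw 2 100 (by norm_num)
      _ ≤ (1 / 1000000) ^ 2 := pow_le_pow_left₀ he0.le he1 2
      _ ≤ 1 / 1000000000 := by norm_num
  have hsL := r7_s ε ρ zL VL.s hε0 hεbig hρ kL1 wL1
  have hsR := r7_s ε ρ zR VR.s hε0 hεbig hρ kR1 wR1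
  have hhalf : ε * ρ * (1 / 2) ≤ ε * ρ * (1 - 6 * ε) := mul_le_mul_of_nonneg_left (by linarith) hερ.le
  have hsL0 : 0 < VL.s := by linarith
  have hsR0 : 0 < VR.s := by linarith
  have hs00 : 0 < V0.s := by rw [hV0s]; linarith [V0.lt]
  -- positions
  have he33 : e ^ 33 ≤ 1 / 1000000 := by
    have := pw 1 33 (by norm_num)
    rw [pow_one] at this
    linarith
  have he59 : e ^ 59 ≤ 1 / 1000000 := by
    have := pw 1 59 (by norm_num)
    rw [pow_one] at this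
    linarith
  have he33ρ : e ^ 33 * ρ ≤ 1 / 1000000 * ρ := mul_le_mul_of_nonneg_right he33 hρ.le
  have he59ρ : e ^ 59 * ρ ≤ 1 / 1000000 * ρ := mul_le_mul_of_nonneg_right he59 hρ.le
  have hερ1 : ε * ρ ≤ 1 / 1000000 * ρ := mul_le_mul_of_nonneg_right hε1 hρ.le
  obtain ⟨cL1, cL2⟩ := abs_le.mp hcL
  obtain ⟨cR1, cR2⟩ := abs_le.mp hcR
  have hVLa : VL.a = VL.c - VL.s / 2 := by rw [hVLc, hVLs]; ring
  have hVLb : VL.b = VL.c + VL.s / 2 := by rw [hVLc, hVLs]; ring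
  have hVRa : VR.a = VR.c - VR.s / 2 := by rw [hVRc, hVRs]; ring
  have hVRb : VR.b = VR.c + VR.s / 2 := by rw [hVRc, hVRs]; ring
  have hV0b : V0.b = V0.c + V0.s / 2 := by rw [hV0c, hV0s]; ring
  -- potential theory facts
  obtain ⟨-, -, q3, -, -, q6⟩ := hP1 Hm Hp C cd
  obtain ⟨-, -, -, g4, g5, -, -, -, -, -, -, -⟩ := hP2 Hm Hp C cd hHm
  obtain ⟨-, qq2, -, -⟩ := hQ4 ε Hm Hp C cd hPar (by linarith)
  have hkL := (g4 VL).2.2.2.2.2.1
  have hkR := (g4 VR).2.2.2.2.2.1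
  have hDpos : 0 < D := by linarith
  have h0L : V0.N < VL.N := (g5 V0 VL (by linarith [V0.lt])).2
  have hLR : VL.N < VR.N := (g5 VL VR (by linarith [VL.lt])).2
  have hJ0 : 0 < Yf cd x ρ := (q3 x ρ ρ hρ le_rfl).1
  -- the law
  obtain ⟨R, hR0', hRLW, hR1, hR2⟩ := r7_R e ε ρ D V0.s (fun R => V0.LW R) he0 he1 hε100 hρ r61.le hs00
    (by intro h; have := r64 h; rw [w40n] at this; exact this) r65
  obtain ⟨P0, P1, hP0, c1, -, -, claw⟩ := hQ ε Hm Hp C cd hPar hεQ' V0 x ρ D R r62 hRLW hNLd hρ r61.le hD105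
    (by rw [w30]; exact hR2) r63 r32
  rw [w115] at c1
  have hcD := r7_c e ρ D R KQ P0 P1 he0 he1 hρ hDpos hR0' hP0 (by linarith) hKQe hD2 hR1 c1
  have hEB : eB ε ρ D R ≤ (e ^ 27 + e ^ 39) * (ρ / D) := by
    simp only [eB]
    rw [w117]
    exact r7_eB e ρ D R he0 he1 hρ hDpos hR0' hD2 hR1
  have hEB0 : 0 ≤ eB ε ρ D R := by
    simp only [eB]
    positivity
  have hUU : ∀ t, UU V0 x P0 P1 t = P0 * (Real.sqrt ((t - V0.c) ^ 2 - (V0.s / 2) ^ 2) * (1 + P1 / P0 * (t - x))) := by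
    intro t
    simp only [UU]
    field_simp
  have hUD : ∀ t, UD V0 x P0 P1 t = P0 * ((t - V0.c) / Real.sqrt ((t - V0.c) ^ 2 - (V0.s / 2) ^ 2) * (1 + P1 / P0 * (t - x))
      + P1 / P0 * Real.sqrt ((t - V0.c) ^ 2 - (V0.s / 2) ^ 2)) := by
    intro t
    simp only [UD]
    field_simp
  have hgen : ∀ V : Gap cd, x - 3 / 5 * ρ ≤ V.a → V.b ≤ x + 3 / 5 * ρ → V.s ≤ e ^ 59 * ρ → |V.c - x| ≤ 3 / 5 * ρ →
      ε * ρ * (1 - 6 * ε) ≤ V.s →
      |(V.N - V0.N) - P0 * (Real.sqrt ((V.c - V0.c) ^ 2 - (V0.s / 2) ^ 2) * (1 + P1 / P0 * (V.c - x)))| ≤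
        e ^ 20 * ρ / D * (VR.N - VL.N) ∧
      P0 * ((V.c - V0.c) / Real.sqrt ((V.c - V0.c) ^ 2 - (V0.s / 2) ^ 2) * (1 + P1 / P0 * (V.c - x))
      + P1 / P0 * Real.sqrt ((V.c - V0.c) ^ 2 - (V0.s / 2) ^ 2)) - 3 * (e ^ 20 * ρ / D) * (VR.N - VL.N) / ρ ≤ V.kk := by
    intro V v1 v2 v3 v4 v5
    obtain ⟨m1, m2⟩ := claw V v1 v2 (by rw [w59]; exact v3)
    have hVs0 : 0 < V.s := by linarith
    have hsq : 3 * ε ^ 2 * ρ ≤ V.s := by
      have : 3 * ε ^ 2 * ρ = 3 * ε * (ε * ρ) := by ring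
      have h7 : 3 * ε * (ε * ρ) ≤ 1 / 2 * (ε * ρ) := mul_le_mul_of_nonneg_right (by linarith) hερ.le
      linarith
    have hnn := h4 ε Hm Hp C cd hPar hε4' x ρ V hρ r32 v4 hsq (by rw [w59]; exact v3)
    rw [w120] at hnn
    obtain ⟨y1, y2⟩ := r7_law e ε ρ D KQ K4 (Yf cd x ρ) (VR.N - VL.N) (nn x ρ V) V.s
      (|V.N - V0.N - UU V0 x P0 P1 V.c|) (eB ε ρ D R) he0 he1 hρ r61.le (by linarith) hKQe (by linarith) hK4e hD2 hJ0
      r22 hVs0 (by linarith) hEB hnn m1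
    refine ⟨?_, ?_⟩
    · rw [← hUU]
      exact y1
    · rw [← hUD]
      obtain ⟨A, hA⟩ : ∃ A, A = |V.N - V0.N - UU V0 x P0 P1 V.c| := ⟨_, rfl⟩
      rw [← hA] at m2 y1
      have z1 : 5 / 4 * A / ρ ≤ 5 / 4 * (e ^ 20 * ρ / D * (VR.N - VL.N)) / ρ := by
        apply div_le_div_of_nonneg_right _ hρ.le
        linarith
      have z2 : KQ * eB ε ρ D R * Yf cd x ρ / ρ ≤ e ^ 20 * ρ / D * (VR.N - VL.N) / ρ :=
        div_le_div_of_nonneg_right y2 hρ.le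
      have z3 : 0 ≤ e ^ 20 * ρ / D * (VR.N - VL.N) / ρ := by
        have : 0 < VR.N - VL.N := by linarith
        positivity
      have z4 : 5 / 4 * (e ^ 20 * ρ / D * (VR.N - VL.N)) / ρ = 5 / 4 * (e ^ 20 * ρ / D * (VR.N - VL.N) / ρ) := by ring
      have z5 : 3 * (e ^ 20 * ρ / D) * (VR.N - VL.N) / ρ = 3 * (e ^ 20 * ρ / D * (VR.N - VL.N) / ρ) := by ring
      linarith
  have hlawL := hgen VL (by linarith) (by linarith) r33 (by rw [abs_le]; constructor <;> linarith) hsL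
  have hlawR := hgen VR (by linarith) (by linarith) r34 (by rw [abs_le]; constructor <;> linarith) hsR
  -- the term with mu_0
  have hlabL : Nf cd VL.c = VL.N := VL.lab VL.c ⟨by linarith, by linarith⟩
  have hlabR : Nf cd VR.c = VR.N := VR.lab VR.c ⟨by linarith, by linarith⟩
  have hlab0 : Nf cd V0.b = V0.N := V0.lab V0.b ⟨V0.lt.le, le_rfl⟩
  have hY1 : VL.N - V0.N ≤ 12 * Yf cd x (2 * D) := by
    rw [← hlabL, ← hlab0]
    exact le_trans (le_abs_self _) (q6 x (2 * D) VL.c V0.b (by linarith) (by rw [abs_le]; constructor <;> linarith)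
      (by rw [abs_le]; constructor <;> linarith))
  have hY2 : VR.N - V0.N ≤ 12 * Yf cd x (2 * D) := by
    rw [← hlabR, ← hlab0]
    exact le_trans (le_abs_self _) (q6 x (2 * D) VR.c V0.b (by linarith) (by rw [abs_le]; constructor <;> linarith)
      (by rw [abs_le]; constructor <;> linarith))
  have hm0 : ((VL.N - V0.N) + (VR.N - V0.N)) * |V0.mu| ≤ 48 * e ^ 40 := by
    rw [w40] at r66
    have h7 : ((VL.N - V0.N) + (VR.N - V0.N)) * |V0.mu| ≤ 24 * Yf cd x (2 * D) * |V0.mu| :=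
      mul_le_mul_of_nonneg_right (by linarith) (abs_nonneg _)
    have h8 : 24 * Yf cd x (2 * D) * |V0.mu| = 24 * (|V0.mu| * Yf cd x (2 * D)) := by ring
    linarith
  have hN3 : (VR.N - V0.N) - (VL.N - V0.N) ≤ 12 * e ^ 300 := by
    have h7 : ε ^ 3 = e ^ 300 := by
      rw [hε100]
      ring
    rw [h7] at r26
    linarith
  have hBB := r7_B hN0 cd V0 VL VR (by linarith)
  have hpp : (VR.N - V0.N) - (VL.N - V0.N) = VR.N - VL.N := by ring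
  have hSS : (VL.N - V0.N) + (VR.N - V0.N) = VL.N + VR.N - 2 * V0.N := by ring
  have hfin := r7_fin hL1 hL2 e ε ρ x D zL zR VL.c VR.c VL.s VR.s VL.kk VR.kk (VL.N - V0.N) (VR.N - V0.N) VL.mu VR.mu V0.mu
    V0.c (V0.s / 2) P0 (P1 / P0) he0 he1 hε100 hρ (by linarith) r61.le hD2 (by linarith) kL1 kR1 kL2 kR2 hcL hcR wL1 wR1
    wL5 wR5 hkL hkR (by linarith) (by linarith) hN3 (qq2 VL) (qq2 VR) hcD (by rw [hpp]; exact hlawL.1)
    (by rw [hpp]; exact hlawR.1) (by rw [hpp]; exact hlawL.2) (by rw [hpp]; exact hlawR.2) hm0 (by linarith)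
    (by rw [hpp, hSS]; exact hBB)
  rw [w5]
  have : e ^ 5 * (2 * (V0.s / 2)) = e ^ 5 * V0.s := by ring
  linarith

end

end Pool.Agent.Helper36.CV
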